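import Pool.Agent.H88.RFP.Defs

/-!
# The `L²` norm of a faithful tracial state
-/

set_option autoImplicit false

open scoped ComplexOrder InnerProductSpace

namespace Pool.H88.RFP

namespace IsFTState

variable {A : Type*} [CStarAlgebra A] {τ : A →ₗ[ℂ] ℂ}

attribute [local instance] CStarAlgebra.spectralOrder CStarAlgebra.spectralOrderedRing

/-- A tracial state as a positive linear map. -/
noncomputable def plm (h : IsFTState τ) : A →ₚ[ℂ] ℂ where
  __ := τ
  monotone' := by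
    intro a b hab
    obtain ⟨c, hc⟩ := CStarAlgebra.nonneg_iff_eq_star_mul_self.1 (sub_nonneg.2 hab)
    have := h.nonneg c
    rw [← hc, map_sub] at this
    exact sub_nonneg.1 this

@[simp] lemma plm_apply (h : IsFTState τ) (a : A) : h.plm a = τ a := rfl

lemma nonneg_of_nonneg (h : IsFTState τ) {a : A} (ha : 0 ≤ a) : 0 ≤ τ a := h.plm.map_nonneg ha

lemma mono (h : IsFTState τ) {a b : A} (hab : a ≤ b) : τ a ≤ τ b := h.plm.monotone' hab

/-- The `L²` norm. -/
noncomputable def n2 (τ : A →ₗ[ℂ] ℂ) (a : A) : ℝ := √(τ (star a * a)).re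

lemma n2_nonneg (a : A) : 0 ≤ n2 τ a := Real.sqrt_nonneg _

lemma norm_toPreGNS (h : IsFTState τ) (a : A) : ‖h.plm.toPreGNS a‖ = n2 τ a := rfl

lemma sq_n2 (h : IsFTState τ) (a : A) : n2 τ a ^ 2 = (τ (star a * a)).re :=
  Real.sq_sqrt (Complex.le_def.1 (h.nonneg a)).1

lemma star_mul_self_eq (h : IsFTState τ) (a : A) : τ (star a * a) = ((n2 τ a ^ 2 : ℝ) : ℂ) := by
  rw [h.sq_n2]
  exact Complex.ext (by simp) (by simpa using (Complex.le_def.1 (h.nonneg a)).2.symm)

lemma cs (h : IsFTState τ) (y x : A) : ‖τ (star y * x)‖ ≤ n2 τ y * n2 τ x := by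
  have := norm_inner_le_norm (𝕜 := ℂ) (h.plm.toPreGNS y) (h.plm.toPreGNS x)
  rw [h.norm_toPreGNS, h.norm_toPreGNS, h.plm.preGNS_inner_def] at this
  exact this

lemma n2_mul_le (h : IsFTState τ) (a x : A) : n2 τ (a * x) ≤ ‖a‖ * n2 τ x := by
  exact (h.plm.leftMulMapPreGNS a).le_of_opNorm_le
    (LinearMap.mkContinuous_norm_le _ (norm_nonneg _) _) (h.plm.toPreGNS x)

lemma n2_one (h : IsFTState τ) : n2 τ 1 = 1 := by
  simp [n2, h.map_one]

lemma n2_le_norm (h : IsFTState τ) (a : A) : n2 τ a ≤ ‖a‖ := by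
  simpa [h.n2_one] using h.n2_mul_le a 1

lemma norm_le (h : IsFTState τ) (a : A) : ‖τ a‖ ≤ ‖a‖ := by
  have := h.cs 1 a
  simpa [h.n2_one] using this.trans (by
    rw [h.n2_one, one_mul]
    exact h.n2_le_norm a)

lemma continuous (h : IsFTState τ) : Continuous τ :=
  (LinearMap.mkContinuous τ 1 (by simpa using h.norm_le)).continuous

lemma map_star (h : IsFTState τ) (a : A) : τ (star a) = star (τ a) := by
  have h1 := inner_conj_symm (𝕜 := ℂ) (h.plm.toPreGNS a) (h.plm.toPreGNS 1)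
  rw [h.plm.preGNS_inner_def, h.plm.preGNS_inner_def] at h1
  simpa using h1.symm

lemma eq_zero_of_n2 (h : IsFTState τ) {a : A} (ha : n2 τ a = 0) : a = 0 := by
  apply h.faithful
  rw [h.star_mul_self_eq, ha]
  simp

lemma n2_pos (h : IsFTState τ) {a : A} (ha : a ≠ 0) : 0 < n2 τ a :=
  lt_of_le_of_ne (n2_nonneg a) fun h0 => ha (h.eq_zero_of_n2 h0.symm)

lemma n2_smul (h : IsFTState τ) (c : ℂ) (a : A) : n2 τ (c • a) = ‖c‖ * n2 τ a := by
  rw [← h.norm_toPreGNS, ← h.norm_toPreGNS, map_smul, norm_smul]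

end IsFTState

end Pool.H88.RFP
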