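import Pool.Agent.H88.RFP.Basic

/-!
# Projections of small total trace have approximate common kernel vectors; characters
-/

set_option autoImplicit false

open scoped ComplexOrder InnerProductSpace
open Finset Filter Topology

namespace Pool.H88.RFP

namespace IsFTState

variable {A : Type*} [CStarAlgebra A] {τ : A →ₗ[ℂ] ℂ}

attribute [local instance] CStarAlgebra.spectralOrder CStarAlgebra.spectralOrderedRing

lemma re_mono (h : IsFTState τ) {a b : A} (hab : a ≤ b) : (τ a).re ≤ (τ b).re :=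
  (Complex.le_def.1 (h.mono hab)).1

/-- Projections `e 0, …, e (n-1)` with total trace `< 1` almost annihilate a unit vector. -/
lemma exists_almost_kernel (h : IsFTState τ) (e : ℕ → A) (hs : ∀ k, star (e k) = e k)
    (hp : ∀ k, e k * e k = e k) (n : ℕ) (hsum : ∑ k ∈ range n, (τ (e k)).re < 1)
    {η : ℝ} (hη : 0 < η) :
    ∃ g : A, n2 τ g = 1 ∧ ∀ k < n, n2 τ (e k * g) ≤ η := by
  set δ : ℝ := 1 - ∑ k ∈ range n, (τ (e k)).re with hδ
  have hδ0 : 0 < δ := by linarith
  set ε : ℝ := δ * η ^ 2 with hε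
  have hε0 : 0 < ε := by positivity
  have he0 : ∀ k, 0 ≤ e k := fun k => by
    have := star_mul_self_nonneg (e k)
    rwa [hs, hp] at this
  set s : A := ∑ k ∈ range n, e k with hsdef
  have hs0 : 0 ≤ s := Finset.sum_nonneg fun k _ => he0 k
  have hle : ∀ k < n, e k ≤ s := fun k hk =>
    Finset.single_le_sum (f := e) (fun i _ => he0 i) (mem_range.2 hk)
  have hεp : IsStrictlyPositive (algebraMap ℝ A ε) :=
    isStrictlyPositive_algebraMap hε0
  have hhp : IsStrictlyPositive (algebraMap ℝ A ε + s) := hεp.add_nonneg hs0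
  obtain ⟨u, hu⟩ := hhp.isUnit
  have hu0 : 0 ≤ (u : A) := hu ▸ hhp.nonneg
  set b : A := ↑u⁻¹ with hb
  have hb0 : 0 ≤ b := CFC.inv_nonneg_of_nonneg u hu0
  have hbs : star b = b := (IsSelfAdjoint.of_nonneg hb0).star_eq
  have hhb : (algebraMap ℝ A ε + s) * b = 1 := by rw [← hu, hb]; simp
  -- `e b e ≤ e`
  have hebe : ∀ k < n, e k * b * e k ≤ e k := by
    intro k hk
    have h1 : (algebraMap ℝ A ε + e k) * (((1 + ε)⁻¹ : ℝ) • e k + (ε⁻¹ : ℝ) • (1 - e k)) = 1 := by
      simp only [Algebra.algebraMap_eq_smul_one, add_mul, mul_add, smul_mul_assoc, one_mul,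
        mul_smul_comm, mul_sub, mul_one, hp, sub_self, smul_zero, add_zero, smul_sub]
      match_scalars <;> field_simp <;> ring
    have h2 : (((1 + ε)⁻¹ : ℝ) • e k + (ε⁻¹ : ℝ) • (1 - e k)) * (algebraMap ℝ A ε + e k) = 1 := by
      simp only [Algebra.algebraMap_eq_smul_one, add_mul, mul_add, smul_mul_assoc, one_mul,
        mul_smul_comm, sub_mul, mul_one, hp, sub_self, smul_zero, add_zero, smul_sub]
      match_scalars <;> field_simp <;> ring
    let v : Aˣ := ⟨algebraMap ℝ A ε + e k, _, h1, h2⟩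
    have h3 : (↑u⁻¹ : A) ≤ ↑v⁻¹ := by
      apply CStarAlgebra.inv_le_inv
      · exact (hεp.add_nonneg (he0 k)).nonneg
      · rw [hu]
        exact add_le_add_right (hle k hk) _
    have h4 := star_left_conjugate_le_conjugate h3 (e k)
    rw [hs] at h4
    refine h4.trans ?_
    have h5 : e k * (↑v⁻¹ : A) * e k = ((1 + ε)⁻¹ : ℝ) • e k := by
      change e k * (((1 + ε)⁻¹ : ℝ) • e k + (ε⁻¹ : ℝ) • (1 - e k)) * e k = _
      simp [mul_add, add_mul, mul_sub, hp]
    rw [h5]
    have h6 : e k = (1 : ℝ) • e k := by simp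
    conv_rhs => rw [h6]
    apply smul_le_smul_of_nonneg_right _ (he0 k)
    rw [inv_le_one₀ (by positivity)]
    linarith
  have htr : ∀ k < n, (τ (e k * b)).re ≤ (τ (e k)).re := by
    intro k hk
    have h1 : τ (e k * b) = τ (e k * b * e k) := by
      conv_lhs => rw [← hp k, mul_assoc, h.trace]
    rw [h1]
    exact h.re_mono (hebe k hk)
  -- lower bound of the trace
  set t : ℝ := (τ b).re with ht
  have h1 : ε * t + (τ (s * b)).re = 1 := by
    have h2 := congrArg (fun z => (τ z).re) hhb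
    simp only [h.map_one, Complex.one_re] at h2
    rw [add_mul, map_add, Complex.add_re, Algebra.algebraMap_eq_smul_one, smul_mul_assoc,
      one_mul, LinearMap.map_smul_of_tower] at h2
    simpa using h2
  have h2 : (τ (s * b)).re ≤ ∑ k ∈ range n, (τ (e k)).re := by
    rw [hsdef, Finset.sum_mul, map_sum, Complex.re_sum]
    exact Finset.sum_le_sum fun k hk => htr k (mem_range.1 hk)
  have ht1 : δ ≤ ε * t := by linarith
  have ht0 : 0 < t := by
    by_contra hc
    push Not at hc
    nlinarith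
  have ht2 : t ≤ n2 τ b := by
    have := h.cs 1 b
    rw [h.n2_one, star_one, one_mul, one_mul] at this
    exact (Complex.re_le_norm _).trans this
  have hnb : 0 < n2 τ b := ht0.trans_le ht2
  have hkey : ∀ k < n, n2 τ (e k * b) ^ 2 ≤ t := by
    intro k hk
    rw [h.sq_n2, star_mul, hbs, hs]
    have h3 : b * e k * (e k * b) = b * e k * b := by
      rw [mul_assoc b (e k), ← mul_assoc (e k) (e k), hp, mul_assoc]
    rw [h3]
    have h4 : e k ≤ algebraMap ℝ A ε + s :=
      (hle k hk).trans (le_add_of_nonneg_left hεp.nonneg)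
    have h5 := star_left_conjugate_le_conjugate h4 b
    rw [hbs, mul_assoc b (algebraMap ℝ A ε + s), hhb, mul_one] at h5
    exact h.re_mono h5
  refine ⟨(((n2 τ b)⁻¹ : ℝ) : ℂ) • b, ?_, ?_⟩
  · rw [h.n2_smul, Complex.norm_real, norm_inv, Real.norm_of_nonneg hnb.le,
      inv_mul_cancel₀ hnb.ne']
  · intro k hk
    rw [mul_smul_comm, h.n2_smul, Complex.norm_real, norm_inv, Real.norm_of_nonneg hnb.le]
    rw [inv_mul_le_iff₀ hnb]
    apply le_of_sq_le_sq _ (by positivity)
    rw [mul_pow]
    have h3 := hkey k hk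
    have h4 : t ^ 2 * η ^ 2 ≤ n2 τ b ^ 2 * η ^ 2 := by gcongr
    have h5 : t ≤ t ^ 2 * η ^ 2 := by
      have : δ * 1 ≤ δ * (η ^ 2 * t) := by rw [hε] at ht1; linarith
      have := le_of_mul_le_mul_left this hδ0
      nlinarith
    linarith

lemma n2_mul_le' (h : IsFTState τ) {a x : A} (hx : n2 τ x = 1) : n2 τ (a * x) ≤ ‖a‖ := by
  simpa [hx] using h.n2_mul_le a x

/-- Limit of vector states: a bounded functional killing the left ideal generated by all `e k`. -/
lemma exists_functional (h : IsFTState τ) (e : ℕ → A) (hs : ∀ k, star (e k) = e k)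
    (hp : ∀ k, e k * e k = e k) (hsum : ∀ n, ∑ k ∈ range n, (τ (e k)).re < 1) :
    ∃ χ : A →L[ℂ] ℂ, χ 1 = 1 ∧ ∀ k x, χ (x * e k) = 0 := by
  choose g hg1 hg2 using fun n => h.exists_almost_kernel e hs hp n (hsum n)
    (η := 1 / ((n : ℝ) + 1)) (by positivity)
  set φ : ℕ → A → ℂ := fun n x => τ (star (g n) * (x * g n)) with hφ
  have hφn : ∀ n x, ‖φ n x‖ ≤ ‖x‖ := by
    intro n x
    refine (h.cs _ _).trans ?_
    rw [hg1, one_mul]
    exact h.n2_mul_le' (hg1 n)
  have hlim : ∀ x, ∃ c : ℂ, ‖c‖ ≤ ‖x‖ ∧ Tendsto (fun n => φ n x) (hyperfilter ℕ : Filter ℕ) (𝓝 c) := by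
    intro x
    obtain ⟨c, hc, hc2⟩ := (isCompact_closedBall (0 : ℂ) ‖x‖).ultrafilter_le_nhds'
      ((hyperfilter ℕ).map fun n => φ n x) (by
        rw [Ultrafilter.mem_map]
        refine Filter.mem_of_superset Filter.univ_mem fun n _ => ?_
        simpa using hφn n x)
    exact ⟨c, by simpa using hc, hc2⟩
  choose χ hχn hχ using hlim
  have hadd : ∀ x y, χ (x + y) = χ x + χ y := by
    intro x y
    refine tendsto_nhds_unique (hχ (x + y)) (((hχ x).add (hχ y)).congr fun n => ?_)
    simp [hφ, add_mul, mul_add]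
  have hsmul : ∀ (c : ℂ) x, χ (c • x) = c • χ x := by
    intro c x
    refine tendsto_nhds_unique (hχ (c • x)) (((hχ x).const_smul c).congr fun n => ?_)
    simp [hφ]
  let χ' : A →ₗ[ℂ] ℂ := { toFun := χ, map_add' := hadd, map_smul' := hsmul }
  refine ⟨χ'.mkContinuous 1 (fun x => by simpa using! hχn x), ?_, ?_⟩
  · change χ 1 = 1
    refine tendsto_nhds_unique (hχ 1) (tendsto_const_nhds.congr fun n => ?_)
    have := h.star_mul_self_eq (g n)
    rw [hg1] at this
    simp [hφ, this]
  · intro k x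
    change χ (x * e k) = 0
    refine tendsto_nhds_unique (hχ (x * e k)) ?_
    have hat : Tendsto (fun n => φ n (x * e k)) atTop (𝓝 0) := by
      have h0 : Tendsto (fun n : ℕ => ‖x‖ * (1 / ((n : ℝ) + 1))) atTop (𝓝 0) := by
        simpa using (tendsto_one_div_add_atTop_nhds_zero_nat (𝕜 := ℝ)).const_mul ‖x‖
      refine squeeze_zero_norm' ?_ h0
      filter_upwards [eventually_gt_atTop k] with n hn
      have h1 : φ n (x * e k) = τ (star (star x * g n) * (e k * g n)) := by
        simp [hφ, mul_assoc]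
      rw [h1]
      refine (h.cs _ _).trans ?_
      have h2 : n2 τ (star x * g n) ≤ ‖x‖ := by
        simpa using h.n2_mul_le' (a := star x) (hg1 n)
      have h3 := hg2 n k hn
      have := n2_nonneg (τ := τ) (e k * g n)
      gcongr
    exact hat.mono_left Nat.hyperfilter_le_atTop

end IsFTState

/-- A continuous functional which is multiplicative on generators is multiplicative. -/
lemma mul_of_generators {A : Type*} [CStarAlgebra A] (χ : A →L[ℂ] ℂ) (h1 : χ 1 = 1) (s : Set A)
    (hs : Dense (Algebra.adjoin ℂ s : Set A)) (hM : ∀ y ∈ s, ∀ x, χ (x * y) = χ x * χ y)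
    (x y : A) : χ (x * y) = χ x * χ y := by
  have hcl : IsClosed {y : A | ∀ x, χ (x * y) = χ x * χ y} := by
    simp only [Set.setOf_forall]
    exact isClosed_iInter fun x => isClosed_eq (by fun_prop) (by fun_prop)
  have hsub : (Algebra.adjoin ℂ s : Set A) ⊆ {y : A | ∀ x, χ (x * y) = χ x * χ y} := by
    intro y hy
    induction hy using Algebra.adjoin_induction with
    | mem y hy => exact hM y hy
    | algebraMap r =>
      intro x
      simp [Algebra.algebraMap_eq_smul_one, h1, mul_comm]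
    | add y z _ _ hy hz =>
      intro x
      rw [mul_add, map_add, map_add, hy, hz, mul_add]
    | mul y z _ _ hy hz =>
      intro x
      rw [← mul_assoc, hz, hy, hz, mul_assoc]
  exact hcl.closure_subset_iff.2 hsub (hs y) x

/-- **Character on a reduced free product.** If each `C k` has a projection `q k` with
`c * q k = χ k c • q k` for all `c`, and if the traces of `1 - q k` have partial sums `< 1`, then
the reduced free product of the `(C k, σ k)` has a character extending the `χ k`. -/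
theorem exists_character {C : ℕ → Type*} [∀ k, CStarAlgebra (C k)] {σ : ∀ k, C k →ₗ[ℂ] ℂ}
    (q : ∀ k, C k) (χ : ∀ k, C k → ℂ) (hqs : ∀ k, star (q k) = q k)
    (hqp : ∀ k, q k * q k = q k) (hqc : ∀ k c, c * q k = χ k c • q k)
    (hsum : ∀ n, ∑ k ∈ range n, (1 - (σ k (q k)).re) < 1)
    {A : Type*} [CStarAlgebra A] {τ : A →ₗ[ℂ] ℂ} {ι : ∀ k, C k →⋆ₐ[ℂ] A}
    (h : IsReducedFreeProduct σ τ ι) :
    ∃ X : A →ₐ[ℂ] ℂ, ∀ k c, X (ι k c) = χ k c := by
  obtain ⟨X, hX1, hX⟩ := h.state.exists_functional (fun k => 1 - ι k (q k))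
    (fun k => by simp [← map_star, hqs])
    (fun k => by
      have : ι k (q k) * ι k (q k) = ι k (q k) := by rw [← map_mul, hqp]
      simp [mul_sub, sub_mul, this])
    (fun n => by
      simpa [h.state.map_one, h.comp] using hsum n)
  have hq : ∀ k x, X (x * ι k (q k)) = X x := by
    intro k x
    have := hX k x
    rw [mul_sub, mul_one, map_sub, sub_eq_zero] at this
    exact this.symm
  have hc : ∀ k c x, X (x * ι k c) = χ k c * X x := by
    intro k c x
    have h1 := hq k (x * ι k c)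
    rw [mul_assoc, ← map_mul, hqc, map_smul, mul_smul_comm, map_smul, hq] at h1
    exact h1.symm
  have hc1 : ∀ k c, X (ι k c) = χ k c := by
    intro k c
    simpa [hX1] using hc k c 1
  have hmul := mul_of_generators X hX1 _ h.dense (by
    rintro y hy x
    obtain ⟨k, c, rfl⟩ := Set.mem_iUnion.1 hy
    rw [hc, hc1, mul_comm])
  refine ⟨AlgHom.ofLinearMap (X : A →ₗ[ℂ] ℂ) hX1 hmul, hc1⟩

end Pool.H88.RFP
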