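import Mathlib

/-!
# Faithful tracial states, freeness, reduced free products: definitions
-/

set_option autoImplicit false

open scoped ComplexOrder

namespace Pool.H88.RFP

/-- A faithful tracial state on a unital C*-algebra. -/
structure IsFTState {A : Type*} [CStarAlgebra A] (τ : A →ₗ[ℂ] ℂ) : Prop where
  map_one : τ 1 = 1
  nonneg : ∀ a, 0 ≤ τ (star a * a)
  trace : ∀ a b, τ (a * b) = τ (b * a)
  faithful : ∀ a, τ (star a * a) = 0 → a = 0

/-- A family `S` of subsets (in the applications: of unital *-subalgebras) of `A` is free with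
respect to `τ` if every product `a₁ a₂ ⋯ aₘ`, `m ≥ 1`, of elements `aⱼ ∈ S iⱼ` with `τ aⱼ = 0` and
`i₁ ≠ i₂ ≠ ⋯ ≠ iₘ` has `τ (a₁ a₂ ⋯ aₘ) = 0`. -/
def IsFree {I A : Type*} [CStarAlgebra A] (τ : A →ₗ[ℂ] ℂ) (S : I → Set A) : Prop :=
  ∀ w : List (I × A), w ≠ [] → w.IsChain (fun x y => x.1 ≠ y.1) →
    (∀ x ∈ w, x.2 ∈ S x.1 ∧ τ x.2 = 0) → τ (w.map Prod.snd).prod = 0

/-- `(A, τ)`, together with the unital *-homomorphisms `ι i : C i → A`, is the reduced free product
of the family `(C i, σ i)` of unital C*-algebras with faithful tracial states: `τ` is a faithful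
tracial state on `A` with `τ ∘ ι i = σ i` for all `i` (so that the `ι i` are injective), the images
of the `C i` are free with respect to `τ`, and they generate the C*-algebra `A`. -/
structure IsReducedFreeProduct {I : Type*} {C : I → Type*} [∀ i, CStarAlgebra (C i)]
    (σ : ∀ i, C i →ₗ[ℂ] ℂ) {A : Type*} [CStarAlgebra A] (τ : A →ₗ[ℂ] ℂ)
    (ι : ∀ i, C i →⋆ₐ[ℂ] A) : Prop where
  state : IsFTState τ
  comp : ∀ i c, τ (ι i c) = σ i c
  free : IsFree τ fun i => Set.range (ι i)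
  dense : Dense (Algebra.adjoin ℂ (⋃ i, Set.range (ι i)) : Set A)

/-- `(B, β)`, together with the unital *-homomorphisms `κ₁ : D → B`, `κ₂ : A → B`, is the reduced
free product `(D, δ) *_r (A, α)` of two unital C*-algebras with faithful tracial states. -/
structure IsReducedFreeProduct₂ {D A B : Type*} [CStarAlgebra D] [CStarAlgebra A]
    [CStarAlgebra B] (δ : D →ₗ[ℂ] ℂ) (α : A →ₗ[ℂ] ℂ) (β : B →ₗ[ℂ] ℂ)
    (κ₁ : D →⋆ₐ[ℂ] B) (κ₂ : A →⋆ₐ[ℂ] B) : Prop where
  state : IsFTState β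
  comp₁ : ∀ d, β (κ₁ d) = δ d
  comp₂ : ∀ a, β (κ₂ a) = α a
  free : IsFree β fun b : Bool => bif b then Set.range κ₁ else Set.range κ₂
  dense : Dense (Algebra.adjoin ℂ (Set.range κ₁ ∪ Set.range κ₂) : Set B)

lemma integrable_of_compact {X : Type} [TopologicalSpace X] [CompactSpace X] [MeasurableSpace X]
    [OpensMeasurableSpace X] (μ : MeasureTheory.Measure X)
    [MeasureTheory.IsFiniteMeasureOnCompacts μ] (f : C(X, ℂ)) :
    MeasureTheory.Integrable (fun x => f x) μ :=
  f.continuous.integrable_of_hasCompactSupport (HasCompactSupport.of_compactSpace _)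

/-- The trace on `C([0,1])` given by Lebesgue measure. -/
noncomputable def lebesgue : C(unitInterval, ℂ) →ₗ[ℂ] ℂ where
  toFun f := ∫ t, f t
  map_add' f g :=
    MeasureTheory.integral_add (integrable_of_compact _ f) (integrable_of_compact _ g)
  map_smul' c f := MeasureTheory.integral_const_mul c _

/-- The weighted trace `(a, b) ↦ t a + (1 - t) b` on `ℂ ⊕ ℂ`. -/
noncomputable def wt (t : ℝ) : ℂ × ℂ →ₗ[ℂ] ℂ :=
  (t : ℂ) • LinearMap.fst ℂ ℂ ℂ + (1 - t : ℂ) • LinearMap.snd ℂ ℂ ℂ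

end Pool.H88.RFP
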