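import Pool.Agent.H88.RFP.Group

/-!
# Subgroups, ping-pong and freeness in `L(G)`
-/

set_option autoImplicit false

open scoped ComplexOrder InnerProductSpace ENNReal

namespace Pool.H88.RFP

section group

variable {G : Type} [Group G] [DecidableEq G]

lemma exists_of_cf_mul_ne {a : HG G →L[ℂ] HG G} (ha : a ∈ LG G) (b : HG G →L[ℂ] HG G) {g : G}
    (h : cf (a * b) g ≠ 0) : ∃ k, cf a (g * k⁻¹) ≠ 0 ∧ cf b k ≠ 0 := by
  by_contra hc
  push Not at hc
  apply h
  rw [cf_mul ha]
  have : ∀ k, cf a (g * k⁻¹) * cf b k = 0 := fun k => by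
    by_cases h1 : cf a (g * k⁻¹) = 0
    · simp [h1]
    · simp [hc k h1]
  simp [this]

/-- The elements of `L(G)` supported on the subgroup `K`. -/
noncomputable def LK (K : Subgroup G) : StarSubalgebra ℂ (LG G) where
  carrier := {a | ∀ g ∉ K, cf (a : HG G →L[ℂ] HG G) g = 0}
  mul_mem' := by
    intro a b ha hb g hg
    by_contra hne
    obtain ⟨k, h1, h2⟩ := exists_of_cf_mul_ne a.2 _ hne
    have hk : k ∈ K := by
      by_contra hk
      exact h2 (hb k hk)
    apply h1
    apply ha
    intro h3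
    apply hg
    have := K.mul_mem h3 hk
    simpa using this
  add_mem' := by
    intro a b ha hb g hg
    have h1 := ha g hg
    have h2 := hb g hg
    simp only [cf] at h1 h2 ⊢
    simp [h1, h2]
  algebraMap_mem' := by
    intro c g hg
    have hg1 : g ≠ 1 := fun h => hg (h ▸ K.one_mem)
    simp [cf, Algebra.algebraMap_eq_smul_one, dl_apply, hg1]
  star_mem' := by
    intro a ha g hg
    change cf (star (a : HG G →L[ℂ] HG G)) g = 0
    rw [cf_star a.2, ha g⁻¹ (by simpa using hg)]
    simp

lemma mem_LK {K : Subgroup G} {a : LG G} :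
    a ∈ LK K ↔ ∀ g ∉ K, cf (a : HG G →L[ℂ] HG G) g = 0 := Iff.rfl

lemma continuous_cf (g : G) : Continuous fun a : LG G => cf (a : HG G →L[ℂ] HG G) g := by
  have : (fun a : LG G => cf (a : HG G →L[ℂ] HG G) g)
      = fun a : LG G => ⟪dl g, (a : HG G →L[ℂ] HG G) (dl 1)⟫_ℂ := by
    funext a
    rw [inner_dl, cf]
  rw [this]
  fun_prop

lemma isClosed_LK (K : Subgroup G) : IsClosed (LK K : Set (LG G)) := by
  have : (LK K : Set (LG G)) = ⋂ g : G, ⋂ _ : g ∉ K,
      {a : LG G | cf (a : HG G →L[ℂ] HG G) g = 0} := by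
    ext a
    simp [mem_LK]
  rw [this]
  exact isClosed_iInter fun g => isClosed_iInter fun _ =>
    isClosed_eq (continuous_cf g) continuous_const

/-- **Ping-pong implies freeness.** -/
theorem isFree_of_pingpong {I : Type} (K : I → Subgroup G) (S : I → Set G)
    (h1 : ∀ i, (1 : G) ∉ S i) (hd : ∀ i j, i ≠ j → Disjoint (S i) (S j))
    (hK : ∀ i, ∀ k ∈ K i, k ≠ 1 → ∀ g ∉ S i, k * g ∈ S i) :
    IsFree (tr G) fun i => (LK (K i) : Set (LG G)) := by
  have key : ∀ w : List (I × LG G), w.IsChain (fun x y => x.1 ≠ y.1) →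
      (∀ x ∈ w, x.2 ∈ LK (K x.1) ∧ tr G x.2 = 0) → ∀ g,
      cf (((w.map Prod.snd).prod : LG G) : HG G →L[ℂ] HG G) g ≠ 0 →
      (w = [] ∧ g = 1) ∨ ∃ x ∈ w.head?, g ∈ S x.1 := by
    intro w
    induction w with
    | nil =>
      intro _ _ g hg
      left
      refine ⟨rfl, ?_⟩
      by_contra hg1
      apply hg
      simp [cf, dl_apply, hg1]
    | cons x l ih =>
      intro hc hx g hg
      right
      refine ⟨x, by simp, ?_⟩
      rw [List.isChain_cons] at hc
      rw [List.map_cons, List.prod_cons] at hg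
      obtain ⟨k, hk1, hk2⟩ := exists_of_cf_mul_ne x.2.2 _ hg
      have hkS : k ∉ S x.1 := by
        rcases ih hc.2 (fun y hy => hx y (List.mem_cons_of_mem _ hy)) k hk2 with ⟨-, rfl⟩ | ⟨y, hy, hky⟩
        · exact h1 _
        · intro hkx
          exact (Set.disjoint_left.1 (hd _ _ (hc.1 y hy))) hkx hky
      have hxm := hx x (List.mem_cons_self)
      have hgk : g * k⁻¹ ∈ K x.1 := by
        by_contra hn
        exact hk1 (hxm.1 _ hn)
      have hgk1 : g * k⁻¹ ≠ 1 := by
        intro h0
        apply hk1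
        rw [h0]
        exact hxm.2
      have := hK _ _ hgk hgk1 k hkS
      simpa using this
  intro w hw hc hx
  by_contra hne
  rcases key w hc hx 1 hne with ⟨h, -⟩ | ⟨x, -, hx1⟩
  · exact hw h
  · exact h1 _ hx1

/-- The left translations. -/
noncomputable def lam (g : G) : LG G := ⟨permL (Equiv.mulLeft g), by
  rw [mem_LG]
  intro h
  rw [rho, permL_mul, permL_mul]
  congr 1
  ext x
  simp [mul_assoc]⟩

lemma coe_lam (g : G) : (lam g : HG G →L[ℂ] HG G) = permL (Equiv.mulLeft g) := rfl

lemma lam_mul (g h : G) : lam g * lam h = lam (g * h) := by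
  apply Subtype.ext
  change permL (Equiv.mulLeft g) * permL (Equiv.mulLeft h) = permL (Equiv.mulLeft (g * h))
  rw [permL_mul]
  congr 1
  ext x
  simp [mul_assoc]

lemma lam_one : lam (1 : G) = 1 := by
  apply Subtype.ext
  change permL (Equiv.mulLeft (1 : G)) = 1
  rw [← permL_one]
  congr 1
  ext x
  simp

lemma star_lam (g : G) : star (lam g) = lam g⁻¹ := by
  apply Subtype.ext
  change star (permL (Equiv.mulLeft g)) = permL (Equiv.mulLeft g⁻¹)
  rw [star_permL]
  congr 1
  ext x
  simp [Equiv.Perm.inv_def]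

lemma cf_lam (g h : G) : cf (lam g : HG G →L[ℂ] HG G) h = if h = g then 1 else 0 := by
  rw [coe_lam, cf, permL_dl, dl_apply]
  simp

lemma lam_mem_LK {K : Subgroup G} {g : G} (hg : g ∈ K) : lam g ∈ LK K := by
  intro h hh
  rw [cf_lam, if_neg]
  rintro rfl
  exact hh hg

lemma tr_lam (g : G) : tr G (lam g) = if g = 1 then 1 else 0 := by
  rw [tr_apply, cf_lam]
  simp [eq_comm]

/-- The averaging projection of a finite group mapped into `G`. -/
noncomputable def avg {N : Type} [Group N] [Fintype N] (f : N →* G) : LG G :=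
  ((Fintype.card N : ℂ)⁻¹) • ∑ x : N, lam (f x)

section avg

variable {N : Type} [Group N] [Fintype N] (f : N →* G)

lemma star_avg : star (avg f) = avg f := by
  rw [avg, star_smul, star_sum]
  congr 1
  · simp
  · simp only [star_lam]
    rw [← Equiv.sum_comp (Equiv.inv N)]
    simp

lemma avg_mul_self : avg f * avg f = avg f := by
  have h1 : ∀ y : N, (∑ x : N, lam (f x)) * lam (f y) = ∑ x : N, lam (f x) := by
    intro y
    rw [Finset.sum_mul]
    simp only [lam_mul, ← map_mul]
    exact Equiv.sum_comp (Equiv.mulRight y) fun x => lam (f x)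
  rw [avg, smul_mul_smul_comm]
  rw [Finset.mul_sum]
  simp only [h1]
  rw [Finset.sum_const, Finset.card_univ, ← Nat.cast_smul_eq_nsmul ℂ, smul_smul]
  congr 1
  have : (Fintype.card N : ℂ) ≠ 0 := by exact_mod_cast Fintype.card_ne_zero
  field_simp

lemma tr_avg (hf : Function.Injective f) : tr G (avg f) = (Fintype.card N : ℂ)⁻¹ := by
  classical
  rw [avg, map_smul, map_sum]
  simp only [tr_lam, map_eq_one_iff f hf]
  simp

lemma avg_mem_LK {K : Subgroup G} (hK : f.range ≤ K) : avg f ∈ LK K := by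
  rw [avg]
  exact (LK K).smul_mem (sum_mem fun x _ => lam_mem_LK (hK ⟨x, rfl⟩)) _

end avg

end group

/-- The unital *-homomorphism `ℂ ⊕ ℂ → M` given by a projection. -/
noncomputable def projHom {M : Type} [CStarAlgebra M] (p : M) (hs : star p = p) (hp : p * p = p) :
    ℂ × ℂ →⋆ₐ[ℂ] M where
  toFun z := z.1 • p + z.2 • (1 - p)
  map_one' := by simp
  map_mul' z w := by
    simp only [Prod.fst_mul, Prod.snd_mul, add_mul, mul_add, smul_mul_smul_comm, hp, mul_sub,
      sub_mul, mul_one, one_mul, sub_self, smul_zero, add_zero, zero_add, smul_sub]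
    abel
  map_zero' := by simp
  map_add' z w := by
    simp only [Prod.fst_add, Prod.snd_add, add_smul]
    abel
  commutes' c := by
    simp [Algebra.algebraMap_eq_smul_one, smul_sub]
  map_star' z := by
    simp [hs]

end Pool.H88.RFP
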