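import Pool.Agent.H88.RFP.Basic

/-!
# `C([0,1])` with the Lebesgue trace; functional calculus of a Haar unitary
-/

set_option autoImplicit false

open scoped ComplexOrder InnerProductSpace ENNReal unitInterval
open MeasureTheory

namespace Pool.H88.RFP

lemma lebesgue_apply (f : C(unitInterval, ℂ)) : lebesgue f = ∫ t, f t := rfl

lemma lebesgue_eq (f : C(unitInterval, ℂ)) :
    lebesgue f = ∫ t in (0 : ℝ)..1, f (Set.projIcc 0 1 zero_le_one t) := by
  rw [lebesgue_apply, intervalIntegral.integral_of_le zero_le_one,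
    ← integral_Icc_eq_integral_Ioc, ← integral_subtype measurableSet_Icc]
  refine integral_congr_ae (Filter.Eventually.of_forall fun t => ?_)
  simp

/-- The functions `t ↦ exp (2 π i j t)`. -/
noncomputable def expo (j : ℕ) : C(unitInterval, ℂ) where
  toFun t := Complex.exp (2 * Real.pi * Complex.I * j * (t : ℝ))
  continuous_toFun := by fun_prop

lemma star_expo_mul (j : ℕ) : star (expo j) * expo j = 1 := by
  ext t
  simp only [expo, ContinuousMap.mul_apply, ContinuousMap.star_apply, ContinuousMap.coe_mk,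
    ContinuousMap.one_apply, Complex.star_def, ← Complex.exp_conj, ← Complex.exp_add]
  rw [← Complex.exp_zero]
  congr 1
  have h2 : (starRingEnd ℂ) 2 = 2 := map_ofNat _ 2
  simp [h2]

lemma lebesgue_expo {i j : ℕ} (hij : i ≠ j) : lebesgue (star (expo i) * expo j) = 0 := by
  rw [lebesgue_eq]
  have hc : (2 * Real.pi * Complex.I * ((j : ℂ) - i)) ≠ 0 := by
    have h1 : (j : ℂ) - i ≠ 0 := by
      rw [sub_ne_zero]
      exact_mod_cast hij.symm
    have h2 : (Real.pi : ℂ) ≠ 0 := by exact_mod_cast Real.pi_ne_zero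
    simp [h1, h2]
  have h1 : ∀ t ∈ Set.uIcc (0 : ℝ) 1, (star (expo i) * expo j) (Set.projIcc 0 1 zero_le_one t)
      = Complex.exp ((2 * Real.pi * Complex.I * ((j : ℂ) - i)) * t) := by
    intro t ht
    rw [Set.uIcc_of_le zero_le_one] at ht
    rw [Set.projIcc_of_mem _ ht]
    simp only [expo, ContinuousMap.mul_apply, ContinuousMap.star_apply, ContinuousMap.coe_mk,
      Complex.star_def, ← Complex.exp_conj, ← Complex.exp_add]
    congr 1
    have h2 : (starRingEnd ℂ) 2 = 2 := map_ofNat _ 2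
    simp [h2]
    ring
  rw [intervalIntegral.integral_congr h1, integral_exp_mul_complex hc]
  have h2 : Complex.exp ((2 * Real.pi * Complex.I * ((j : ℂ) - i)) * (1 : ℝ)) = 1 := by
    have := Complex.exp_int_mul_two_pi_mul_I ((j : ℤ) - i)
    rw [← this]
    congr 1
    push_cast
    ring
  rw [h2]
  simp

/-- The folding map `ℝ/ℤ → [0,1]`, `θ ↦ arccos (cos 2πθ) / π`. -/
noncomputable def fold : C(AddCircle (1 : ℝ), unitInterval) where
  toFun x := ⟨Real.arccos ((AddCircle.toCircle x : ℂ).re) / Real.pi,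
    div_nonneg (Real.arccos_nonneg _) Real.pi_pos.le,
    (div_le_one Real.pi_pos).2 (Real.arccos_le_pi _)⟩
  continuous_toFun := by
    refine Continuous.subtype_mk ?_ _
    have h1 : Continuous fun x : AddCircle (1 : ℝ) => ((AddCircle.toCircle x : ℂ)).re :=
      Complex.continuous_re.comp (continuous_subtype_val.comp AddCircle.continuous_toCircle)
    exact (Real.continuous_arccos.comp h1).div_const _

lemma fold_coe (t : ℝ) : ((fold (t : AddCircle (1 : ℝ)) : unitInterval) : ℝ)
    = Real.arccos (Real.cos (2 * Real.pi * t)) / Real.pi := by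
  change Real.arccos ((AddCircle.toCircle (t : AddCircle (1 : ℝ)) : ℂ).re) / Real.pi = _
  rw [AddCircle.toCircle_apply_mk, Circle.coe_exp]
  congr 2
  rw [← Complex.exp_ofReal_mul_I_re]
  simp

lemma fold_left {t : ℝ} (h0 : 0 ≤ t) (h1 : t ≤ 1 / 2) :
    ((fold (t : AddCircle (1 : ℝ)) : unitInterval) : ℝ) = 2 * t := by
  rw [fold_coe, Real.arccos_cos]
  · field_simp
  · have := Real.pi_pos
    positivity
  · nlinarith [Real.pi_pos]

lemma fold_right {t : ℝ} (h0 : 1 / 2 ≤ t) (h1 : t ≤ 1) :
    ((fold (t : AddCircle (1 : ℝ)) : unitInterval) : ℝ) = 2 - 2 * t := by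
  rw [fold_coe]
  have h2 : Real.cos (2 * Real.pi * t) = Real.cos (2 * Real.pi - 2 * Real.pi * t) := by
    rw [Real.cos_two_pi_sub]
  rw [h2, Real.arccos_cos]
  · field_simp
  · nlinarith [Real.pi_pos]
  · nlinarith [Real.pi_pos]

lemma integral_fold (f : C(unitInterval, ℂ)) :
    ∫ x : AddCircle (1 : ℝ), f (fold x) = lebesgue f := by
  rw [← AddCircle.intervalIntegral_preimage 1 0 fun x => f (fold x), zero_add, lebesgue_eq]
  set F : ℝ → ℂ := fun t => f (Set.projIcc 0 1 zero_le_one t) with hF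
  have hcont : Continuous fun t : ℝ => f (fold (t : AddCircle (1 : ℝ))) :=
    (f.continuous.comp fold.continuous).comp (AddCircle.continuous_mk' 1)
  rw [← intervalIntegral.integral_add_adjacent_intervals (b := 1 / 2)
    (hcont.intervalIntegrable _ _) (hcont.intervalIntegrable _ _)]
  have h1 : ∫ t in (0 : ℝ)..(1 / 2), f (fold (t : AddCircle (1 : ℝ)))
      = ∫ t in (0 : ℝ)..(1 / 2), F (2 * t) := by
    refine intervalIntegral.integral_congr fun t ht => ?_
    rw [Set.uIcc_of_le (by norm_num)] at ht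
    rw [hF]
    congr 1
    apply Subtype.ext
    rw [fold_left ht.1 ht.2, Set.projIcc_of_mem _ (show 2 * t ∈ Set.Icc (0 : ℝ) 1 from
      ⟨by linarith [ht.1], by linarith [ht.2]⟩)]
  have h2 : ∫ t in (1 / 2 : ℝ)..1, f (fold (t : AddCircle (1 : ℝ)))
      = ∫ t in (1 / 2 : ℝ)..1, F (2 - 2 * t) := by
    refine intervalIntegral.integral_congr fun t ht => ?_
    rw [Set.uIcc_of_le (by norm_num)] at ht
    rw [hF]
    congr 1
    apply Subtype.ext
    rw [fold_right ht.1 ht.2, Set.projIcc_of_mem _ (show 2 - 2 * t ∈ Set.Icc (0 : ℝ) 1 from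
      ⟨by linarith [ht.2], by linarith [ht.1]⟩)]
  rw [h1, h2, intervalIntegral.integral_comp_mul_left _ (by norm_num : (2 : ℝ) ≠ 0),
    intervalIntegral.integral_comp_sub_mul _ (by norm_num : (2 : ℝ) ≠ 0)]
  norm_num
  rw [← two_mul, ← mul_assoc]
  norm_num

section haar

variable {M : Type} [CStarAlgebra M] {τ : M →ₗ[ℂ] ℂ}

/-- `C(ℝ/ℤ) → M`, `fourier 1 ↦ u`, trace preserving for a Haar unitary `u`. -/
theorem exists_circle_hom (h : IsFTState τ) (u : M) (hu1 : star u * u = 1) (hu2 : u * star u = 1)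
    (hu : ∀ n : ℕ, n ≠ 0 → τ (u ^ n) = 0) :
    ∃ Ψ : C(AddCircle (1 : ℝ), ℂ) →⋆ₐ[ℂ] M, (∀ f, τ (Ψ f) = ∫ x, f x) ∧
      ∀ f, Ψ f ∈ StarAlgebra.elemental ℂ u := by
  have hmem : u ∈ unitary M := ⟨hu1, hu2⟩
  have hn : IsStarNormal u := ⟨by rw [Commute, SemiconjBy, hu1, hu2]⟩
  have hsp : ∀ z : spectrum ℂ u, (z : ℂ) ∈ Submonoid.unitSphere ℂ := fun z =>
    spectrum.subset_circle_of_unitary hmem z.2
  let ψ : C(spectrum ℂ u, AddCircle (1 : ℝ)) :=
    ⟨fun z => (AddCircle.homeomorphCircle (one_ne_zero : (1 : ℝ) ≠ 0)).symm ⟨z, hsp z⟩, by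
      refine (Homeomorph.continuous _).comp ?_
      exact Continuous.subtype_mk continuous_subtype_val _⟩
  have hψ : ∀ z : spectrum ℂ u, ((AddCircle.toCircle (ψ z) : Circle) : ℂ) = z := by
    intro z
    have h1 := (AddCircle.homeomorphCircle (one_ne_zero : (1 : ℝ) ≠ 0)).apply_symm_apply ⟨z, hsp z⟩
    rw [AddCircle.homeomorphCircle_apply] at h1
    have h2 := congrArg (fun w : Circle => (w : ℂ)) h1
    exact h2
  let Ψ : C(AddCircle (1 : ℝ), ℂ) →⋆ₐ[ℂ] M :=
    (cfcHom hn).comp (ContinuousMap.compStarAlgHom' ℂ ℂ ψ)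
  have hΨ1 : Ψ (fourier 1) = u := by
    have h1 : (ContinuousMap.compStarAlgHom' ℂ ℂ ψ) (fourier 1)
        = ContinuousMap.restrict (spectrum ℂ u) (ContinuousMap.id ℂ) := by
      ext z
      change fourier 1 (ψ z) = (z : ℂ)
      rw [fourier_one, hψ]
    change cfcHom hn ((ContinuousMap.compStarAlgHom' ℂ ℂ ψ) (fourier 1)) = u
    rw [h1, cfcHom_id]
  have hΨn : ∀ n : ℕ, Ψ (fourier (n : ℤ)) = u ^ n := by
    intro n
    induction n with
    | zero =>
      have : (fourier ((0 : ℕ) : ℤ) : C(AddCircle (1 : ℝ), ℂ)) = 1 := by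
        ext x
        simp
      rw [this]
      simp
    | succ n ih =>
      have : (fourier ((n + 1 : ℕ) : ℤ) : C(AddCircle (1 : ℝ), ℂ)) = fourier (n : ℤ) * fourier 1 := by
        ext x
        rw [ContinuousMap.mul_apply, ← fourier_add]
        simp
      rw [this, map_mul, ih, hΨ1, pow_succ]
  have hfint : ∀ n : ℤ, n ≠ 0 → ∫ x : AddCircle (1 : ℝ), fourier n x = 0 := by
    intro n hn0
    rw [← AddCircle.intervalIntegral_preimage 1 0 fun x => fourier n x, zero_add]
    have hc : (2 * Real.pi * Complex.I * (n : ℂ)) ≠ 0 := by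
      have h1 : (n : ℂ) ≠ 0 := by exact_mod_cast hn0
      have h2 : (Real.pi : ℂ) ≠ 0 := by exact_mod_cast Real.pi_ne_zero
      simp [h1, h2]
    have h1 : ∀ t : ℝ, fourier n (t : AddCircle (1 : ℝ))
        = Complex.exp ((2 * Real.pi * Complex.I * (n : ℂ)) * t) := by
      intro t
      rw [fourier_coe_apply]
      simp
    simp only [h1]
    rw [integral_exp_mul_complex hc]
    have h2 : Complex.exp ((2 * Real.pi * Complex.I * (n : ℂ)) * (1 : ℝ)) = 1 := by
      have := Complex.exp_int_mul_two_pi_mul_I n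
      rw [← this]
      congr 1
      push_cast
      ring
    rw [h2]
    simp
  have hcΨ : Continuous Ψ :=
    (LinearMap.mkContinuous (Ψ.toAlgHom.toLinearMap) 1 fun f => by
      rw [one_mul]
      exact NonUnitalStarAlgHom.norm_apply_le Ψ f).continuous
  have huniv : (volume : Measure (AddCircle (1 : ℝ))).real Set.univ = 1 := by
    simp [Measure.real, AddCircle.measure_univ]
  let L : C(AddCircle (1 : ℝ), ℂ) →ₗ[ℂ] ℂ :=
    { toFun := fun f => ∫ x, f x
      map_add' := fun f g =>
        integral_add (integrable_of_compact _ f) (integrable_of_compact _ g)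
      map_smul' := fun c f => integral_const_mul c _ }
  have hcL : Continuous L := by
    refine (LinearMap.mkContinuous L 1 fun f => ?_).continuous
    have h1 := norm_integral_le_of_norm_le_const (μ := (volume : Measure (AddCircle (1 : ℝ))))
      (f := fun x => f x) (C := ‖f‖) (Filter.Eventually.of_forall fun x => f.norm_coe_le_norm x)
    rw [huniv, mul_one] at h1
    rw [one_mul]
    exact h1
  have hf : ∀ f, τ (Ψ f) = ∫ x, f x := by
    have hcl : IsClosed {f : C(AddCircle (1 : ℝ), ℂ) | τ (Ψ f) = ∫ x, f x} := by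
      refine isClosed_eq (h.continuous.comp hcΨ) ?_
      exact hcL
    have hsub : ((Submodule.span ℂ (Set.range (fourier (T := (1 : ℝ))))
        : Submodule ℂ C(AddCircle (1 : ℝ), ℂ)) : Set C(AddCircle (1 : ℝ), ℂ))
        ⊆ {f : C(AddCircle (1 : ℝ), ℂ) | τ (Ψ f) = ∫ x, f x} := by
      intro f hf
      induction hf using Submodule.span_induction with
      | mem f hf =>
        obtain ⟨n, rfl⟩ := hf
        change τ (Ψ (fourier n)) = ∫ x, fourier n x
        by_cases hn0 : n = 0
        · subst hn0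
          have h1 := hΨn 0
          rw [Nat.cast_zero, pow_zero] at h1
          rw [h1, h.map_one]
          simp [huniv]
        · rw [hfint n hn0]
          rcases Int.natAbs_eq n with hn | hn
          · rw [hn, hΨn]
            exact hu _ (by simpa using hn0)
          · have h1 : (fourier n : C(AddCircle (1 : ℝ), ℂ)) = star (fourier ((n.natAbs : ℕ) : ℤ)) := by
              ext x
              conv_lhs => rw [hn]
              rw [fourier_neg]
              rfl
            rw [h1, map_star, hΨn, h.map_star, hu _ (by simpa using hn0), star_zero]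
      | zero => simp
      | add f g _ _ hf hg =>
        change τ (Ψ (f + g)) = ∫ x, (f + g) x
        have h1 : ∫ x, (f + g) x = (∫ x, f x) + ∫ x, g x :=
          integral_add (integrable_of_compact _ f) (integrable_of_compact _ g)
        rw [map_add, map_add, h1]
        exact congrArg₂ (· + ·) hf hg
      | smul c f _ hf =>
        change τ (Ψ (c • f)) = ∫ x, (c • f) x
        have h1 : ∫ x, (c • f) x = c * ∫ x, f x := integral_const_mul c _
        rw [map_smul, map_smul, h1]
        exact congrArg (c * ·) hf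
    intro f
    have h1 := hcl.closure_subset_iff.2 hsub
    apply h1
    have h2 : f ∈ (Submodule.span ℂ (Set.range (fourier (T := (1 : ℝ))))).topologicalClosure := by
      rw [span_fourier_closure_eq_top]
      trivial
    exact h2
  exact ⟨Ψ, hf, fun f => cfcHom_mem_elemental hn _⟩

/-- A Haar unitary gives a trace-preserving embedding of `(C([0,1]), Lebesgue)`. -/
theorem exists_lebesgue_hom (h : IsFTState τ) (u : M) (hu1 : star u * u = 1)
    (hu2 : u * star u = 1) (hu : ∀ n : ℕ, n ≠ 0 → τ (u ^ n) = 0) :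
    ∃ Φ : C(unitInterval, ℂ) →⋆ₐ[ℂ] M, (∀ f, τ (Φ f) = lebesgue f) ∧
      ∀ f, Φ f ∈ StarAlgebra.elemental ℂ u := by
  obtain ⟨Ψ, h1, h2⟩ := exists_circle_hom h u hu1 hu2 hu
  refine ⟨Ψ.comp (ContinuousMap.compStarAlgHom' ℂ ℂ fold), fun f => ?_, fun f => h2 _⟩
  change τ (Ψ (ContinuousMap.compStarAlgHom' ℂ ℂ fold f)) = _
  rw [h1, ← integral_fold]
  rfl

end haar

end Pool.H88.RFP
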