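import Pool.Agent.H88.RFP.Sub
import Pool.Agent.H88.RFP.Haar
import Pool.Agent.H88.RFP.Group2

/-!
# Existence of the reduced free products
-/

set_option autoImplicit false

open scoped ComplexOrder InnerProductSpace ENNReal
open Monoid

namespace Pool.H88.RFP

section words

variable {ι : Type} {M : ι → Type} [∀ i, Group (M i)] [DecidableEq ι] [∀ i, DecidableEq (M i)]

/-- the index of the first letter of the reduced word of `g` -/
def fst (g : CoprodI M) : Option ι := (g • (CoprodI.Word.empty : CoprodI.Word M)).fstIdx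

lemma fst_one : fst (1 : CoprodI M) = none := by
  rw [fst, one_smul]
  rfl

lemma fst_of_mul {i : ι} {m : M i} (hm : m ≠ 1) {g : CoprodI M} (hg : fst g ≠ some i) :
    fst (CoprodI.of m * g) = some i := by
  rw [fst, mul_smul, ← CoprodI.Word.cons_eq_smul (h1 := hg) (h2 := hm),
    CoprodI.Word.fstIdx_cons]

lemma fst_lift {κ : Type} [DecidableEq κ] {f : κ → ι} (hf : Function.Injective f)
    {g : CoprodI M} (hg : ∀ k, fst g ≠ some (f k))
    (w : CoprodI.Word fun k => M (f k)) :
    w = CoprodI.Word.empty ∨ ∃ k, w.fstIdx = some k ∧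
      fst (CoprodI.lift (fun k => (CoprodI.of : M (f k) →* CoprodI M)) w.prod * g)
        = some (f k) := by
  induction w using CoprodI.Word.consRecOn with
  | empty => exact Or.inl rfl
  | cons i m w h1 h2 ih =>
    right
    refine ⟨i, CoprodI.Word.fstIdx_cons _ _ _ _, ?_⟩
    rw [CoprodI.Word.prod_cons, map_mul, CoprodI.lift_of, mul_assoc]
    apply fst_of_mul h2
    rcases ih with rfl | ⟨k, hk1, hk2⟩
    · rw [CoprodI.Word.prod_empty, map_one, one_mul]
      exact hg i
    · rw [hk2]
      intro h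
      apply h1
      rw [hk1, hf (Option.some_injective _ h)]

lemma fst_mul_of_mem_range {κ : Type} [DecidableEq κ] {f : κ → ι} (hf : Function.Injective f)
    {h g : CoprodI M}
    (hh : h ∈ (CoprodI.lift (fun k => (CoprodI.of : M (f k) →* CoprodI M))).range)
    (h1 : h ≠ 1) (hg : ∀ k, fst g ≠ some (f k)) : ∃ k, fst (h * g) = some (f k) := by
  obtain ⟨h', rfl⟩ := hh
  obtain ⟨w, rfl⟩ := CoprodI.Word.equiv.symm.surjective h'
  rcases fst_lift hf hg w with rfl | ⟨k, -, hk⟩
  · exfalso
    apply h1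
    have : CoprodI.Word.equiv.symm (CoprodI.Word.empty : CoprodI.Word fun k => M (f k)) = 1 := rfl
    rw [this, map_one]
  · exact ⟨k, hk⟩

end words

lemma wt_apply (t : ℝ) (z : ℂ × ℂ) : wt t z = t * z.1 + (1 - t) * z.2 := rfl

lemma isFTState_wt {t : ℝ} (h0 : 0 < t) (h1 : t < 1) : IsFTState (wt t) := by
  have hz : ∀ z : ℂ × ℂ, wt t (star z * z)
      = ((t * ‖z.1‖ ^ 2 + (1 - t) * ‖z.2‖ ^ 2 : ℝ) : ℂ) := by
    intro z
    rw [wt_apply]
    simp only [Prod.fst_mul, Prod.snd_mul, Prod.fst_star, Prod.snd_star, Complex.star_def,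
      Complex.conj_mul']
    push_cast
    ring
  refine ⟨?_, ?_, ?_, ?_⟩
  · rw [wt_apply]
    simp
  · intro z
    rw [hz, Complex.zero_le_real]
    have : 0 ≤ 1 - t := by linarith
    positivity
  · intro a b
    rw [mul_comm]
  · intro z hz0
    rw [hz, Complex.ofReal_eq_zero] at hz0
    have h2 : 0 < 1 - t := by linarith
    have h3 : ‖z.1‖ ^ 2 = 0 := by
      by_contra hne
      have : 0 < ‖z.1‖ ^ 2 := lt_of_le_of_ne (by positivity) (Ne.symm hne)
      have := mul_pos h0 this
      have : 0 ≤ (1 - t) * ‖z.2‖ ^ 2 := by positivity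
      linarith
    have h4 : ‖z.2‖ ^ 2 = 0 := by
      rw [h3] at hz0
      have : (1 - t) * ‖z.2‖ ^ 2 = 0 := by linarith
      exact (mul_eq_zero.1 this).resolve_left h2.ne'
    exact Prod.ext (by simpa using h3) (by simpa using h4)

section group

/-- The orders of the cyclic factors: `ℤ` and the `ℤ/n k`. -/
def ord (n : ℕ → ℕ) (o : Option ℕ) : ℕ := o.elim 0 n

/-- The cyclic factors. -/
abbrev Fac (n : ℕ → ℕ) (i : Option ℕ) : Type := Multiplicative (ZMod (ord n i))

/-- The free product `ℤ * (*_k ℤ/n k)`. -/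
abbrev Gp (n : ℕ → ℕ) : Type := CoprodI (Fac n)

/-- **Existence.** For `n k ≥ 2` there are reduced free products `A` of the algebras `ℂ ⊕ ℂ` with
weights `(1/n k, 1 - 1/n k)`, and of `C([0,1])` and `A`. -/
theorem existence (n : ℕ → ℕ) (hn : ∀ k, 2 ≤ n k) :
    ∃ (A : Type) (_ : CStarAlgebra A) (α : A →ₗ[ℂ] ℂ) (ι : ∀ _ : ℕ, ℂ × ℂ →⋆ₐ[ℂ] A),
      IsReducedFreeProduct (fun k => wt (1 / n k)) α ι ∧
      ∃ (B : Type) (_ : CStarAlgebra B) (β : B →ₗ[ℂ] ℂ) (κ₁ : C(unitInterval, ℂ) →⋆ₐ[ℂ] B)
        (κ₂ : A →⋆ₐ[ℂ] B), IsReducedFreeProduct₂ lebesgue α β κ₁ κ₂ := by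
  classical
  haveI : ∀ k, NeZero (ord n (some k)) := fun k => ⟨by
    change n k ≠ 0
    have := hn k
    omega⟩
  have hτ : IsFTState (tr (Gp n)) := isFTState_tr
  -- the projections
  let f : ∀ k, Fac n (some k) →* Gp n := fun k => CoprodI.of
  have hfinj : ∀ k, Function.Injective (f k) := fun k => CoprodI.of_injective _
  let ι₀ : ∀ _ : ℕ, ℂ × ℂ →⋆ₐ[ℂ] LG (Gp n) := fun k =>
    projHom (avg (f k)) (star_avg _) (avg_mul_self _)
  have hι₀ : ∀ k z, ι₀ k z = z.1 • avg (f k) + z.2 • (1 - avg (f k)) := fun k z => rfl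
  have hcard : ∀ k, Fintype.card (Fac n (some k)) = n k := fun k => by
    rw [Fintype.card_multiplicative, ZMod.card]
    rfl
  have hmem : ∀ k z, ι₀ k z ∈ LK (f k).range := by
    intro k z
    rw [hι₀]
    have := avg_mem_LK (f k) (le_refl (f k).range)
    exact add_mem ((LK _).smul_mem this _) ((LK _).smul_mem (sub_mem (one_mem _) this) _)
  have hc : ∀ k z, tr (Gp n) (ι₀ k z) = wt (1 / n k) z := by
    intro k z
    rw [hι₀, map_add, map_smul, map_smul, map_sub, tr_avg _ (hfinj k), hcard, hτ.map_one,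
      wt_apply]
    simp only [smul_eq_mul]
    push_cast
    ring
  have hfree : IsFree (tr (Gp n)) fun k => Set.range (ι₀ k) := by
    have h1 := isFree_of_pingpong (G := Gp n) (I := ℕ) (fun k => (f k).range)
      (fun k => {g | fst g = some (some k)}) (fun k h => by
        rw [Set.mem_setOf_eq, fst_one] at h
        simp at h)
      (fun k l hkl => by
        rw [Set.disjoint_left]
        intro g hg hg'
        rw [Set.mem_setOf_eq] at hg hg'
        rw [hg] at hg'
        exact hkl (Option.some_injective _ (Option.some_injective _ hg')))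
      (fun k h hh hh1 g hg => by
        obtain ⟨m, rfl⟩ := hh
        refine fst_of_mul ?_ hg
        rintro rfl
        exact hh1 (map_one _))
    refine h1.mono fun k => ?_
    rintro _ ⟨z, rfl⟩
    exact hmem k z
  obtain ⟨A, iA, α, ι, j, hA, hj, hjS⟩ := exists_rfp hτ ι₀ hc hfree
  refine ⟨A, iA, α, ι, hA, ?_⟩
  -- the Haar unitary
  let t : Fac n none := Multiplicative.ofAdd (1 : ZMod 0)
  let u : LG (Gp n) := lam (CoprodI.of t)
  have hu1 : star u * u = 1 := by
    change star (lam _) * lam _ = 1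
    rw [star_lam, lam_mul, inv_mul_cancel, lam_one]
  have hu2 : u * star u = 1 := by
    change lam _ * star (lam _) = 1
    rw [star_lam, lam_mul, mul_inv_cancel, lam_one]
  have hun : ∀ m : ℕ, u ^ m = lam (CoprodI.of (t ^ m)) := by
    intro m
    induction m with
    | zero => rw [pow_zero, pow_zero, map_one, lam_one]
    | succ m ih =>
      rw [pow_succ, ih, pow_succ, map_mul, ← lam_mul]
  have hut : ∀ m : ℕ, m ≠ 0 → tr (Gp n) (u ^ m) = 0 := by
    intro m hm
    rw [hun, tr_lam, if_neg]
    intro h1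
    rw [map_eq_one_iff _ (CoprodI.of_injective none)] at h1
    have h2 : (m : ZMod 0) = 0 := by
      have h3 := congrArg Multiplicative.toAdd h1
      rw [toAdd_pow] at h3
      change m • (1 : ZMod 0) = 0 at h3
      simpa using h3
    rw [ZMod.natCast_eq_zero_iff] at h2
    exact hm (Nat.eq_zero_of_zero_dvd h2)
  obtain ⟨Φ, hΦ, hΦu⟩ := exists_lebesgue_hom hτ u hu1 hu2 hut
  let K : Bool → Subgroup (Gp n) := fun b =>
    bif b then (CoprodI.of : Fac n none →* Gp n).range
    else (CoprodI.lift (fun k : ℕ => (CoprodI.of : Fac n (some k) →* Gp n))).range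
  let S : Bool → Set (Gp n) := fun b =>
    bif b then {g | fst g = some none} else {g | ∃ k : ℕ, fst g = some (some k)}
  have hpp := isFree_of_pingpong (G := Gp n) (I := Bool) K S
    (by
      rintro (_ | _)
      · rintro ⟨k, hk⟩
        rw [fst_one] at hk
        simp at hk
      · intro h
        change fst _ = _ at h
        rw [fst_one] at h
        simp at h)
    (by
      have h0 : Disjoint (S true) (S false) := by
        rw [Set.disjoint_left]
        rintro g hg ⟨k, hk⟩
        change fst g = _ at hg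
        rw [hg] at hk
        simp at hk
      rintro (_ | _) (_ | _) hij
      · exact absurd rfl hij
      · exact h0.symm
      · exact h0
      · exact absurd rfl hij)
    (by
      rintro (_ | _) h hh hh1 g hg
      · exact fst_mul_of_mem_range (M := Fac n) (f := (some : ℕ → Option ℕ))
          (Option.some_injective _) hh hh1 fun k hk => hg ⟨k, hk⟩
      · obtain ⟨m, rfl⟩ := hh
        refine fst_of_mul ?_ hg
        rintro rfl
        exact hh1 (map_one _))
  refine exists_rfp₂ hτ Φ j hΦ hj (hpp.mono ?_)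
  rintro (_ | _)
  · rintro _ ⟨a, rfl⟩
    refine hjS _ (isClosed_LK _) ?_ a
    intro k z
    rw [hι₀]
    have h1 : avg (f k) ∈ LK (K false) := by
      apply avg_mem_LK
      rintro _ ⟨m, rfl⟩
      exact ⟨CoprodI.of m, CoprodI.lift_of _ m⟩
    exact add_mem ((LK _).smul_mem h1 _) ((LK _).smul_mem (sub_mem (one_mem _) h1) _)
  · rintro _ ⟨g, rfl⟩
    have hu3 : u ∈ LK (K true) := lam_mem_LK ⟨t, rfl⟩
    have h1 : StarAlgebra.elemental ℂ u ≤ LK (K true) :=
      StarAlgebra.elemental.le_of_mem (A := LG (Gp n)) (S := LK (K true)) (isClosed_LK _) hu3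
    exact h1 (hΦu g)

end group

end Pool.H88.RFP
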