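import Pool.Agent.H88.RFP.Basic

/-!
# The group von Neumann algebra `L(G) ⊆ B(ℓ²(G))` and its trace
-/

set_option autoImplicit false

open scoped ComplexOrder InnerProductSpace ENNReal

namespace Pool.H88.RFP

/-- The Hilbert space `ℓ²(G)`. -/
abbrev HG (G : Type) : Type := lp (fun _ : G => ℂ) 2

section perm

variable {G : Type}

/-- The unitary on `ℓ²(G)` induced by a permutation of `G`. -/
noncomputable def permL (σ : Equiv.Perm G) : HG G →L[ℂ] HG G :=
  LinearMap.mkContinuous
    { toFun := fun ξ => ⟨fun h => ξ (σ.symm h), by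
        have h2 : (0 : ℝ) < (2 : ℝ≥0∞).toReal := by norm_num
        have := (memℓp_gen_iff h2).1 (lp.memℓp ξ)
        exact (memℓp_gen_iff h2).2 ((Equiv.summable_iff σ.symm).2 this)⟩
      map_add' := fun ξ η => by
        apply lp.ext
        funext h
        simp <;> rfl
      map_smul' := fun c ξ => by
        apply lp.ext
        funext h
        simp }
    1 (fun ξ => by
      have h2 : (0 : ℝ) < (2 : ℝ≥0∞).toReal := by norm_num
      rw [one_mul, lp.norm_eq_tsum_rpow h2, lp.norm_eq_tsum_rpow h2]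
      apply le_of_eq
      congr 1
      exact Equiv.tsum_eq σ.symm fun g => ‖ξ g‖ ^ (2 : ℝ≥0∞).toReal)

@[simp] lemma permL_apply (σ : Equiv.Perm G) (ξ : HG G) (h : G) : permL σ ξ h = ξ (σ.symm h) := rfl

lemma permL_mul (σ σ' : Equiv.Perm G) : permL σ * permL σ' = permL (σ * σ') := by
  ext ξ h
  simp <;> rfl

lemma permL_one : permL (1 : Equiv.Perm G) = 1 := by
  ext ξ h
  simp <;> rfl

lemma star_permL (σ : Equiv.Perm G) : star (permL σ) = permL σ⁻¹ := by
  rw [ContinuousLinearMap.star_eq_adjoint, eq_comm, ContinuousLinearMap.eq_adjoint_iff]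
  intro ξ η
  rw [lp.inner_eq_tsum, lp.inner_eq_tsum, ← Equiv.tsum_eq σ.symm]
  refine tsum_congr fun c => ?_
  rw [permL_apply, permL_apply]
  congr 2
  change ξ (σ (σ.symm c)) = ξ c
  simp

end perm

section group

variable {G : Type} [Group G] [DecidableEq G]

/-- The basis vectors of `ℓ²(G)`. -/
noncomputable def dl (g : G) : HG G := lp.single 2 g (1 : ℂ)

lemma dl_apply (g h : G) : dl g h = if h = g then 1 else 0 := by
  simp [dl, lp.single_apply, Pi.single_apply]

lemma inner_dl (g : G) (ξ : HG G) : ⟪dl g, ξ⟫_ℂ = ξ g := by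
  simp [dl, lp.inner_single_left]

lemma permL_dl (σ : Equiv.Perm G) (g : G) : permL σ (dl g) = dl (σ g) := by
  apply lp.ext
  funext h
  rw [permL_apply, dl_apply, dl_apply]
  simp [Equiv.symm_apply_eq]

/-- The right translations. -/
noncomputable def rho (g : G) : HG G →L[ℂ] HG G := permL (Equiv.mulRight g)

variable (G) in
/-- The group von Neumann algebra: the commutant of the right translations. -/
noncomputable def LG : StarSubalgebra ℂ (HG G →L[ℂ] HG G) :=
  StarSubalgebra.centralizer ℂ (Set.range rho)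

lemma mem_LG {a : HG G →L[ℂ] HG G} : a ∈ LG G ↔ ∀ g, rho g * a = a * rho g := by
  rw [LG, StarSubalgebra.mem_centralizer_iff]
  constructor
  · exact fun h g => (h _ ⟨g, rfl⟩).1
  · rintro h _ ⟨g, rfl⟩
    refine ⟨h g, ?_⟩
    have : star (rho g) = rho g⁻¹ := by
      rw [rho, star_permL, rho, Equiv.Perm.inv_def]
      simp
    rw [this]
    exact h g⁻¹

instance isClosed_LG : IsClosed (LG G : Set (HG G →L[ℂ] HG G)) := by
  have : (LG G : Set (HG G →L[ℂ] HG G)) = ⋂ g : G, {a | rho g * a = a * rho g} := by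
    ext a
    simp [mem_LG]
  rw [this]
  exact isClosed_iInter fun g => isClosed_eq (by fun_prop) (by fun_prop)

/-- The coefficients of an element of `L(G)`. -/
noncomputable def cf (a : HG G →L[ℂ] HG G) (g : G) : ℂ := a (dl 1) g

lemma apply_dl {a : HG G →L[ℂ] HG G} (ha : a ∈ LG G) (h g : G) : a (dl h) g = cf a (g * h⁻¹) := by
  have h1 : dl h = rho h (dl (1 : G)) := by rw [rho, permL_dl]; simp
  have h2 : a (rho h (dl 1)) = rho h (a (dl 1)) := by
    have := congrArg (fun T => T (dl (1 : G))) (mem_LG.1 ha h)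
    simpa using this.symm
  rw [h1, h2, rho, permL_apply, cf]
  simp

lemma cf_star {a : HG G →L[ℂ] HG G} (ha : a ∈ LG G) (g : G) : cf (star a) g = star (cf a g⁻¹) := by
  rw [cf, ← inner_dl, ContinuousLinearMap.star_eq_adjoint, ContinuousLinearMap.adjoint_inner_right,
    ← inner_conj_symm, inner_dl, apply_dl ha, one_mul]
  rfl

/-- Elements of `L(G)` act by convolution. -/
lemma apply_eq {a : HG G →L[ℂ] HG G} (ha : a ∈ LG G) (ξ : HG G) (g : G) :
    a ξ g = ∑' h, cf a (g * h⁻¹) * ξ h := by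
  rw [← inner_dl, ← ContinuousLinearMap.adjoint_inner_left, lp.inner_eq_tsum]
  refine tsum_congr fun h => ?_
  rw [← ContinuousLinearMap.star_eq_adjoint, apply_dl (star_mem ha), cf_star ha]
  simp [mul_comm]

lemma cf_mul {a : HG G →L[ℂ] HG G} (ha : a ∈ LG G) (b : HG G →L[ℂ] HG G) (g : G) :
    cf (a * b) g = ∑' h, cf a (g * h⁻¹) * cf b h := apply_eq ha _ g

lemma eq_zero_of_cf {a : HG G →L[ℂ] HG G} (ha : a ∈ LG G) (h : ∀ g, cf a g = 0) : a = 0 := by
  ext ξ g
  rw [apply_eq ha]
  simp [h]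

variable (G) in
/-- The canonical trace on `L(G)`. -/
noncomputable def tr : LG G →ₗ[ℂ] ℂ where
  toFun a := cf (a : HG G →L[ℂ] HG G) 1
  map_add' a b := by simp [cf]
  map_smul' c a := by simp [cf]

lemma tr_apply (a : LG G) : tr G a = cf (a : HG G →L[ℂ] HG G) 1 := rfl

lemma isFTState_tr : IsFTState (tr G) where
  map_one := by simp [tr_apply, cf, dl_apply]
  nonneg a := by
    rw [tr_apply]
    change 0 ≤ (star (a : HG G →L[ℂ] HG G) * (a : HG G →L[ℂ] HG G)) (dl 1) 1
    rw [← inner_dl, ContinuousLinearMap.mul_apply, ContinuousLinearMap.star_eq_adjoint,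
      ContinuousLinearMap.adjoint_inner_right, inner_self_eq_norm_sq_to_K]
    refine le_of_le_of_eq (Complex.zero_le_real.2
      (sq_nonneg ‖(a : HG G →L[ℂ] HG G) (dl 1)‖)) ?_
    push_cast
    rfl
  trace a b := by
    rw [tr_apply, tr_apply]
    change cf ((a : HG G →L[ℂ] HG G) * (b : HG G →L[ℂ] HG G)) 1
      = cf ((b : HG G →L[ℂ] HG G) * (a : HG G →L[ℂ] HG G)) 1
    rw [cf_mul a.2, cf_mul b.2, ← Equiv.tsum_eq (Equiv.inv G)]
    refine tsum_congr fun h => ?_
    simp [mul_comm]
  faithful a h := by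
    apply Subtype.ext
    apply eq_zero_of_cf a.2
    rw [tr_apply] at h
    change (star (a : HG G →L[ℂ] HG G) * (a : HG G →L[ℂ] HG G)) (dl 1) 1 = 0 at h
    rw [← inner_dl, ContinuousLinearMap.mul_apply, ContinuousLinearMap.star_eq_adjoint,
      ContinuousLinearMap.adjoint_inner_right, inner_self_eq_zero] at h
    intro g
    rw [cf, h]
    rfl

end group

end Pool.H88.RFP
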