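import Pool.Agent.H88.RFP.Powers

/-!
# No characters on a free product with a diffuse algebra
-/

set_option autoImplicit false

open scoped ComplexOrder InnerProductSpace
open Finset

namespace Pool.H88.RFP

section averaging

variable {I B : Type*} [CStarAlgebra B] {τ : B →ₗ[ℂ] ℂ} {P : I → StarSubalgebra ℂ B}

attribute [local instance] CStarAlgebra.spectralOrder CStarAlgebra.spectralOrderedRing

lemma IsFTState.n2_isometry_mul {v : B} (hv : star v * v = 1) (b : B) :
    IsFTState.n2 τ (v * b) = IsFTState.n2 τ b := by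
  unfold IsFTState.n2
  rw [star_mul, mul_assoc, ← mul_assoc (star v), hv, one_mul]

/-- **Powers averaging in a reduced free product.** -/
theorem averaging (h : IsFTState τ) (hf : IsFree τ fun i => (P i : Set B))
    (hd : Dense (Algebra.adjoin ℂ (⋃ i, (P i : Set B)) : Set B)) {i₀ i₁ : I} (hi : i₀ ≠ i₁)
    (v : ℕ → B) (hvP : ∀ j, v j ∈ P i₁) (hv1 : ∀ j, star (v j) * v j = 1)
    (hv2 : ∀ j, v j * star (v j) = 1) (hvo : ∀ i j, i ≠ j → τ (star (v i) * v j) = 0)
    {x : B} (hx : x ∈ P i₀) (hx0 : τ x = 0) (n : ℕ) :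
    ‖∑ j ∈ range n, v j * x * star (v j)‖ ≤ 2 * √n * ‖x‖ := by
  have hdV : Dense (V τ P : Set B) := hd.mono fun y hy => adjoin_le_V h hy
  refine h.norm_le_of_bilinear (by positivity) hdV ?_
  intro ξ hξ η hη
  have hdec : ∀ ζ ∈ V τ P, ∀ j, ∃ e ∈ E τ P i₀, ∃ f ∈ F τ P i₀, star (v j) * ζ = e + f := by
    intro ζ hζ j
    have h1 : star (v j) * ζ ∈ V τ P := mul_mem_V h (star_mem (hvP j)) hζ
    rw [V_eq i₀, Submodule.mem_sup] at h1
    obtain ⟨e, he, f, hf, hef⟩ := h1
    exact ⟨e, he, f, hf, hef.symm⟩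
  have hback : ∀ ζ j (e f : B), star (v j) * ζ = e + f → ζ = v j * e + v j * f := by
    intro ζ j e f hef
    rw [← mul_add, ← hef, ← mul_assoc, hv2, one_mul]
  choose e he f hf' hef using hdec ξ hξ
  choose e' he' f' hf'' hef' using hdec η hη
  have hEF : ∀ s ∈ E τ P i₀, ∀ t ∈ F τ P i₀, τ (star s * t) = 0 := by
    intro s hs t ht
    have := orth_span (τ := τ) 1 (fun s (hs : IsWord τ P (some i₀) s) t
      (ht : ∃ o, o ≠ some i₀ ∧ IsWord τ P o t) => by
        obtain ⟨o, ho, ht⟩ := ht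
        rw [one_mul]
        exact IsWord.orthogonal h hf ht hs ho) hs ht
    simpa using this
  have hEE : ∀ i j, i ≠ j → ∀ s ∈ E τ P i₀, ∀ t ∈ E τ P i₀,
      τ (star s * ((star (v i) * v j) * t)) = 0 := by
    intro i j hij s hs t ht
    refine orth_span (τ := τ) _ (fun s (hs : IsWord τ P (some i₀) s) t
      (ht : IsWord τ P (some i₀) t) => ?_) hs ht
    exact IsWord.orthogonal h hf
      (.cons (mul_mem (star_mem (hvP i)) (hvP j)) (hvo i j hij) ht (by simpa using hi)) hs
      (by simpa using hi.symm)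
  have hFF : ∀ s ∈ F τ P i₀, ∀ t ∈ F τ P i₀, τ (star s * (x * t)) = 0 := by
    intro s hs t ht
    refine orth_span (τ := τ) _ (fun s (hs : ∃ o, o ≠ some i₀ ∧ IsWord τ P o s) t
      (ht : ∃ o, o ≠ some i₀ ∧ IsWord τ P o t) => ?_) hs ht
    obtain ⟨o, ho, ht⟩ := ht
    obtain ⟨o', ho', hs⟩ := hs
    exact IsWord.orthogonal h hf (.cons hx hx0 ht ho) hs ho'.symm
  set J := h.plm.toPreGNS with hJ
  have hin : ∀ a b : B, ⟪J a, J b⟫_ℂ = τ (star a * b) := fun a b => rfl
  have key := powers (H := h.plm.PreGNS) n (norm_nonneg x)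
    (fun j b => J (v j * x * star (v j) * h.plm.ofPreGNS b))
    (fun j b c => by simp [mul_add]) (fun j b => by
      change IsFTState.n2 τ (v j * x * star (v j) * h.plm.ofPreGNS b)
        ≤ ‖x‖ * IsFTState.n2 τ (h.plm.ofPreGNS b)
      rw [mul_assoc, mul_assoc, IsFTState.n2_isometry_mul (hv1 j)]
      refine (h.n2_mul_le _ _).trans ?_
      rw [IsFTState.n2_isometry_mul (by rw [star_star, hv2])])
    (J ξ) (J η) (fun j => J (v j * e j)) (fun j => J (v j * f j))
    (fun j => J (v j * e' j)) (fun j => J (v j * f' j))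
    (fun j => by rw [← map_add, ← hback ξ j _ _ (hef j)])
    (fun j => by
      rw [hin, star_mul, mul_assoc, ← mul_assoc (star (v j)), hv1, one_mul]
      exact hEF _ (he j) _ (hf' j))
    (fun i j hij => by
      rw [hin, star_mul, mul_assoc, ← mul_assoc (star (v i))]
      exact hEE i j hij _ (he i) _ (he j))
    (fun j => by rw [← map_add, ← hback η j _ _ (hef' j)])
    (fun j => by
      rw [hin, star_mul, mul_assoc, ← mul_assoc (star (v j)), hv1, one_mul]
      exact hEF _ (he' j) _ (hf'' j))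
    (fun i j hij => by
      rw [hin, star_mul, mul_assoc, ← mul_assoc (star (v i))]
      exact hEE i j hij _ (he' i) _ (he' j))
    (fun j => by
      rw [hin]
      have h1 : star (v j * f' j) * (v j * x * star (v j) * h.plm.ofPreGNS (J (v j * f j)))
          = star (f' j) * (x * f j) := by
        change star (v j * f' j) * (v j * x * star (v j) * (v j * f j)) = _
        rw [star_mul]
        calc star (f' j) * star (v j) * (v j * x * star (v j) * (v j * f j))
            = star (f' j) * ((star (v j) * v j) * x * (star (v j) * v j) * f j) := by noncomm_ring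
          _ = _ := by rw [hv1, one_mul, mul_one]
      rw [h1]
      exact hFF _ (hf'' j) _ (hf' j))
  have h2 : ∑ j ∈ range n, J (v j * x * star (v j) * h.plm.ofPreGNS (J ξ))
      = J ((∑ j ∈ range n, v j * x * star (v j)) * ξ) := by
    rw [Finset.sum_mul, map_sum]
    rfl
  rw [h2, hin] at key
  exact key

/-- Centred elements are killed by every character. -/
theorem character_eq_zero (h : IsFTState τ) (hf : IsFree τ fun i => (P i : Set B))
    (hd : Dense (Algebra.adjoin ℂ (⋃ i, (P i : Set B)) : Set B)) {i₀ i₁ : I} (hi : i₀ ≠ i₁)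
    (v : ℕ → B) (hvP : ∀ j, v j ∈ P i₁) (hv1 : ∀ j, star (v j) * v j = 1)
    (hv2 : ∀ j, v j * star (v j) = 1) (hvo : ∀ i j, i ≠ j → τ (star (v i) * v j) = 0)
    {x : B} (hx : x ∈ P i₀) (hx0 : τ x = 0) (X : B →ₐ[ℂ] ℂ) : X x = 0 := by
  by_contra hne
  have hpos : 0 < ‖X x‖ := norm_pos_iff.2 hne
  obtain ⟨n, hn⟩ := exists_nat_gt ((2 * ‖x‖ / ‖X x‖) ^ 2)
  have h1 := averaging h hf hd hi v hvP hv1 hv2 hvo hx hx0 n
  have hB : Nontrivial B := ⟨⟨1, 0, fun h01 => by
    have := h.map_one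
    rw [h01] at this
    simp at this⟩⟩
  have h2 : ‖X (∑ j ∈ range n, v j * x * star (v j))‖ ≤ 2 * √n * ‖x‖ :=
    (AlgHom.norm_apply_le_self X _).trans h1
  have h3 : X (∑ j ∈ range n, v j * x * star (v j)) = n * X x := by
    rw [map_sum]
    have : ∀ j ∈ range n, X (v j * x * star (v j)) = X x := by
      intro j _
      rw [map_mul, map_mul]
      have h4 : X (star (v j)) * X (v j) = 1 := by rw [← map_mul, hv1, map_one]
      linear_combination (X x) * h4
    rw [Finset.sum_congr rfl this]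
    simp
  rw [h3, norm_mul, Complex.norm_natCast] at h2
  have hn0 : (0 : ℝ) < n := lt_of_le_of_lt (by positivity) hn
  have h5 : (n : ℝ) = √n * √n := (Real.mul_self_sqrt hn0.le).symm
  have h6 : 0 < √(n : ℝ) := Real.sqrt_pos.2 hn0
  have h7 : √(n : ℝ) * ‖X x‖ ≤ 2 * ‖x‖ := by
    have : √(n : ℝ) * (√(n : ℝ) * ‖X x‖) ≤ √(n : ℝ) * (2 * ‖x‖) := by
      calc √(n : ℝ) * (√(n : ℝ) * ‖X x‖) = (n : ℝ) * ‖X x‖ := by
            rw [← mul_assoc, ← h5]
        _ ≤ 2 * √n * ‖x‖ := h2
        _ = _ := by ring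
    exact le_of_mul_le_mul_left this h6
  have h8 : 2 * ‖x‖ / ‖X x‖ < √(n : ℝ) := by
    apply lt_of_pow_lt_pow_left₀ 2 h6.le
    rwa [Real.sq_sqrt hn0.le]
  rw [div_lt_iff₀ hpos] at h8
  linarith

end averaging

end Pool.H88.RFP
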