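import Pool.Agent.H88.RFP.Words
import Pool.Agent.H88.RFP.Char

/-!
# The Powers averaging inequality in a reduced free product
-/

set_option autoImplicit false

open scoped ComplexOrder InnerProductSpace
open Finset

namespace Pool.H88.RFP

section abstract

variable {H : Type*} [SeminormedAddCommGroup H] [InnerProductSpace ℂ H]

lemma bessel (n : ℕ) (v : H) (a a' : ℕ → H) (hdec : ∀ j, v = a j + a' j)
    (h1 : ∀ j, ⟪a j, a' j⟫_ℂ = 0) (h2 : ∀ i j, i ≠ j → ⟪a i, a j⟫_ℂ = 0) :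
    ∑ j ∈ range n, ‖a j‖ ^ 2 ≤ ‖v‖ ^ 2 := by
  set y : H := ∑ j ∈ range n, a j with hy
  have hyy : ⟪y, y⟫_ℂ = ((∑ j ∈ range n, ‖a j‖ ^ 2 : ℝ) : ℂ) := by
    rw [hy, sum_inner]
    push_cast
    refine Finset.sum_congr rfl fun i hi => ?_
    rw [inner_sum, Finset.sum_eq_single i]
    · exact inner_self_eq_norm_sq_to_K (𝕜 := ℂ) (a i)
    · exact fun j _ hj => h2 i j hj.symm
    · exact fun hni => absurd hi hni
  have hyv : ⟪y, v⟫_ℂ = ((∑ j ∈ range n, ‖a j‖ ^ 2 : ℝ) : ℂ) := by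
    rw [hy, sum_inner]
    push_cast
    refine Finset.sum_congr rfl fun i _ => ?_
    conv_lhs => rw [hdec i]
    rw [inner_add_right, h1, add_zero]
    exact inner_self_eq_norm_sq_to_K (𝕜 := ℂ) (a i)
  have h3 : ∑ j ∈ range n, ‖a j‖ ^ 2 = ‖y‖ ^ 2 := by
    have := inner_self_eq_norm_sq_to_K (𝕜 := ℂ) y
    rw [hyy] at this
    apply Complex.ofReal_injective
    rw [this]
    push_cast
    rfl
  have h4 : ∑ j ∈ range n, ‖a j‖ ^ 2 ≤ ‖y‖ * ‖v‖ := by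
    have h5 := norm_inner_le_norm (𝕜 := ℂ) y v
    rw [hyv, Complex.norm_real] at h5
    exact (le_abs_self _).trans h5
  rw [h3] at h4 ⊢
  have h5 : ‖y‖ ≤ ‖v‖ := by
    by_contra hc
    push Not at hc
    nlinarith [norm_nonneg y, norm_nonneg v]
  gcongr

lemma sum_norm_le (n : ℕ) (v : H) (a a' : ℕ → H) (hdec : ∀ j, v = a j + a' j)
    (h1 : ∀ j, ⟪a j, a' j⟫_ℂ = 0) (h2 : ∀ i j, i ≠ j → ⟪a i, a j⟫_ℂ = 0) :
    ∑ j ∈ range n, ‖a j‖ ≤ √n * ‖v‖ := by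
  apply le_of_sq_le_sq _ (by positivity)
  refine (sq_sum_le_card_mul_sum_sq).trans ?_
  rw [mul_pow, Real.sq_sqrt (by positivity), card_range]
  gcongr
  exact bessel n v a a' hdec h1 h2

lemma powers (n : ℕ) {M : ℝ} (hM : 0 ≤ M) (T : ℕ → H → H) (hadd : ∀ j v w, T j (v + w) = T j v + T j w)
    (hT : ∀ j v, ‖T j v‖ ≤ M * ‖v‖) (ξ η : H) (a a' b b' : ℕ → H)
    (ha : ∀ j, ξ = a j + a' j) (ha1 : ∀ j, ⟪a j, a' j⟫_ℂ = 0)
    (ha2 : ∀ i j, i ≠ j → ⟪a i, a j⟫_ℂ = 0)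
    (hb : ∀ j, η = b j + b' j) (hb1 : ∀ j, ⟪b j, b' j⟫_ℂ = 0)
    (hb2 : ∀ i j, i ≠ j → ⟪b i, b j⟫_ℂ = 0) (hz : ∀ j, ⟪b' j, T j (a' j)⟫_ℂ = 0) :
    ‖⟪η, ∑ j ∈ range n, T j ξ⟫_ℂ‖ ≤ 2 * √n * M * (‖η‖ * ‖ξ‖) := by
  have hterm : ∀ j, ‖⟪η, T j ξ⟫_ℂ‖ ≤ M * (‖η‖ * ‖a j‖) + M * (‖ξ‖ * ‖b j‖) := by
    intro j
    have h1 : ⟪η, T j ξ⟫_ℂ = ⟪η, T j (a j)⟫_ℂ + ⟪b j, T j (a' j)⟫_ℂ := by
      conv_lhs => rw [ha j, hadd, inner_add_right]
      congr 1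
      conv_lhs => rw [hb j, inner_add_left, hz, add_zero]
    have h2 : ‖a' j‖ ≤ ‖ξ‖ := by
      have h3 : ‖ξ‖ * ‖ξ‖ = ‖a j‖ * ‖a j‖ + ‖a' j‖ * ‖a' j‖ := by
        conv_lhs => rw [ha j]
        exact norm_add_sq_eq_norm_sq_add_norm_sq_of_inner_eq_zero _ _ (ha1 j)
      by_contra hc
      push Not at hc
      nlinarith [norm_nonneg (a' j), norm_nonneg ξ, norm_nonneg (a j)]
    rw [h1]
    refine (norm_add_le _ _).trans (add_le_add ?_ ?_)
    · refine (norm_inner_le_norm _ _).trans ?_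
      calc ‖η‖ * ‖T j (a j)‖ ≤ ‖η‖ * (M * ‖a j‖) := by gcongr; exact hT _ _
        _ = M * (‖η‖ * ‖a j‖) := by ring
    · refine (norm_inner_le_norm _ _).trans ?_
      calc ‖b j‖ * ‖T j (a' j)‖ ≤ ‖b j‖ * (M * ‖a' j‖) := by gcongr; exact hT _ _
        _ ≤ ‖b j‖ * (M * ‖ξ‖) := by gcongr
        _ = M * (‖ξ‖ * ‖b j‖) := by ring
  rw [inner_sum]
  refine (norm_sum_le _ _).trans ((Finset.sum_le_sum fun j _ => hterm j).trans ?_)
  rw [Finset.sum_add_distrib, ← Finset.mul_sum, ← Finset.mul_sum, ← Finset.mul_sum,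
    ← Finset.mul_sum]
  have h1 := sum_norm_le n ξ a a' ha ha1 ha2
  have h2 := sum_norm_le n η b b' hb hb1 hb2
  calc M * (‖η‖ * ∑ j ∈ range n, ‖a j‖) + M * (‖ξ‖ * ∑ j ∈ range n, ‖b j‖)
      ≤ M * (‖η‖ * (√n * ‖ξ‖)) + M * (‖ξ‖ * (√n * ‖η‖)) := by gcongr
    _ = 2 * √n * M * (‖η‖ * ‖ξ‖) := by ring

end abstract

section norm

variable {B : Type*} [CStarAlgebra B] {τ : B →ₗ[ℂ] ℂ}

attribute [local instance] CStarAlgebra.spectralOrder CStarAlgebra.spectralOrderedRing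

lemma IsFTState.continuous_n2 (h : IsFTState τ) : Continuous (IsFTState.n2 τ) := by
  unfold IsFTState.n2
  have := h.continuous
  fun_prop

/-- The norm of `x` is the norm of the left multiplication by `x` on `L²`. -/
lemma IsFTState.norm_le_of_n2 (h : IsFTState τ) {x : B} {c : ℝ} (hc : 0 ≤ c)
    (hx : ∀ b, IsFTState.n2 τ (x * b) ≤ c * IsFTState.n2 τ b) : ‖x‖ ≤ c := by
  have hinj : Function.Injective h.plm.gnsStarAlgHom := by
    rw [injective_iff_map_eq_zero]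
    intro a ha
    have h1 : h.plm.gnsStarAlgHom a (h.plm.toPreGNS 1 : h.plm.PreGNS) = 0 := by rw [ha]; rfl
    have h2 : (h.plm.gnsStarAlgHom a) (h.plm.toPreGNS 1 : h.plm.PreGNS)
        = ((h.plm.toPreGNS (a * 1) : h.plm.PreGNS) : h.plm.GNS) := by
      exact h.plm.gnsNonUnitalStarAlgHom_apply_coe
    rw [h2] at h1
    have h3 : ‖((h.plm.toPreGNS (a * 1) : h.plm.PreGNS) : h.plm.GNS)‖ = 0 := by rw [h1]; simp
    rw [UniformSpace.Completion.norm_coe, h.norm_toPreGNS, mul_one] at h3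
    exact h.eq_zero_of_n2 h3
  rw [← NonUnitalStarAlgHom.norm_map h.plm.gnsStarAlgHom hinj x]
  refine ContinuousLinearMap.opNorm_le_bound _ hc fun y => ?_
  induction y using UniformSpace.Completion.induction_on with
  | hp => exact isClosed_le (by fun_prop) (by fun_prop)
  | ih y =>
    have h2 : (h.plm.gnsStarAlgHom x) (y : h.plm.GNS)
        = ((h.plm.toPreGNS (x * h.plm.ofPreGNS y) : h.plm.PreGNS) : h.plm.GNS) := by
      exact h.plm.gnsNonUnitalStarAlgHom_apply_coe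
    rw [h2, UniformSpace.Completion.norm_coe, UniformSpace.Completion.norm_coe, h.norm_toPreGNS]
    exact hx _

/-- Bilinear version of `norm_le_of_n2` on a dense subspace. -/
lemma IsFTState.norm_le_of_bilinear (h : IsFTState τ) {x : B} {c : ℝ} (hc : 0 ≤ c) {D : Set B}
    (hD : Dense D)
    (hx : ∀ ξ ∈ D, ∀ η ∈ D, ‖τ (star η * (x * ξ))‖ ≤ c * (IsFTState.n2 τ η * IsFTState.n2 τ ξ)) :
    ‖x‖ ≤ c := by
  have hcont := h.continuous
  have hcn := h.continuous_n2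
  have hall : ∀ ξ η, ‖τ (star η * (x * ξ))‖ ≤ c * (IsFTState.n2 τ η * IsFTState.n2 τ ξ) := by
    have h1 : ∀ ξ ∈ D, ∀ η, ‖τ (star η * (x * ξ))‖ ≤ c * (IsFTState.n2 τ η * IsFTState.n2 τ ξ) := by
      intro ξ hξ
      have hcl : IsClosed {η | ‖τ (star η * (x * ξ))‖ ≤ c * (IsFTState.n2 τ η * IsFTState.n2 τ ξ)} :=
        isClosed_le (by fun_prop) (by fun_prop)
      exact fun η => hcl.closure_subset_iff.2 (fun η hη => hx ξ hξ η hη) (hD η)
    intro ξ η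
    have hcl : IsClosed {ξ | ‖τ (star η * (x * ξ))‖ ≤ c * (IsFTState.n2 τ η * IsFTState.n2 τ ξ)} :=
      isClosed_le (by fun_prop) (by fun_prop)
    exact hcl.closure_subset_iff.2 (fun ξ hξ => h1 ξ hξ η) (hD ξ)
  refine h.norm_le_of_n2 hc fun b => ?_
  have h1 := hall b (x * b)
  rw [h.star_mul_self_eq, Complex.norm_real, Real.norm_of_nonneg (by positivity)] at h1
  have h2 := IsFTState.n2_nonneg (τ := τ) (x * b)
  have h3 := IsFTState.n2_nonneg (τ := τ) b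
  by_contra hcon
  push Not at hcon
  have h4 : 0 < IsFTState.n2 τ (x * b) := (by positivity : 0 ≤ c * IsFTState.n2 τ b).trans_lt hcon
  nlinarith

end norm

end Pool.H88.RFP
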