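import Pool.Agent.H88.RFP.Basic

/-!
# Free families in an ambient C*-algebra give reduced free products
-/

set_option autoImplicit false

open scoped ComplexOrder InnerProductSpace ENNReal

namespace Pool.H88.RFP

section

variable {M : Type} [CStarAlgebra M]

/-- The closed *-subalgebra generated by a set. -/
noncomputable def clAlg (s : Set M) : StarSubalgebra ℂ M :=
  (StarAlgebra.adjoin ℂ s).topologicalClosure

instance isClosed_clAlg (s : Set M) : IsClosed (clAlg s : Set M) :=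
  StarSubalgebra.isClosed_topologicalClosure _

lemma subset_clAlg (s : Set M) : s ⊆ clAlg s :=
  (StarAlgebra.subset_adjoin ℂ s).trans (StarSubalgebra.le_topologicalClosure _)

lemma clAlg_le {s : Set M} {S : StarSubalgebra ℂ M} (hS : IsClosed (S : Set M)) (h : s ⊆ S) :
    clAlg s ≤ S :=
  StarSubalgebra.topologicalClosure_minimal (StarAlgebra.adjoin_le h) hS

lemma dense_clAlg {s : Set M} (hs : star s = s) (t : Set (clAlg s))
    (ht : Subtype.val '' t = s) : Dense (Algebra.adjoin ℂ t : Set (clAlg s)) := by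
  intro x
  rw [Topology.IsInducing.subtypeVal.closure_eq_preimage_closure_image, Set.mem_preimage]
  have h1 : (Subtype.val '' (Algebra.adjoin ℂ t : Set (clAlg s)) : Set M)
      = (StarAlgebra.adjoin ℂ s : Set M) := by
    have h2 := AlgHom.map_adjoin (clAlg s).subtype.toAlgHom t
    have h3 : ((clAlg s).subtype.toAlgHom : clAlg s → M) '' t = s := ht
    rw [h3] at h2
    have h4 : (StarAlgebra.adjoin ℂ s).toSubalgebra = Algebra.adjoin ℂ s := by
      rw [StarAlgebra.adjoin_toSubalgebra, hs, Set.union_self]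
    have h5 := congrArg (fun S : Subalgebra ℂ M => (S : Set M)) (h2.trans h4.symm)
    exact h5
  have h6 : (x : M) ∈ closure (StarAlgebra.adjoin ℂ s : Set M) := x.2
  rw [← h1] at h6
  exact h6

/-- The restriction of a functional to a *-subalgebra. -/
noncomputable def res (τ : M →ₗ[ℂ] ℂ) (S : StarSubalgebra ℂ M) : S →ₗ[ℂ] ℂ :=
  τ ∘ₗ S.subtype.toAlgHom.toLinearMap

lemma res_apply (τ : M →ₗ[ℂ] ℂ) (S : StarSubalgebra ℂ M) (a : S) : res τ S a = τ (a : M) := rfl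

lemma IsFTState.res {τ : M →ₗ[ℂ] ℂ} (h : IsFTState τ) (S : StarSubalgebra ℂ M)
    [IsClosed (S : Set M)] : IsFTState (res τ S) where
  map_one := h.map_one
  nonneg a := h.nonneg a
  trace a b := h.trace a b
  faithful a ha := Subtype.ext (h.faithful a ha)

lemma IsFree.res {I : Type} {τ : M →ₗ[ℂ] ℂ} {S : StarSubalgebra ℂ M} [IsClosed (S : Set M)]
    {T : I → Set S} (h : IsFree τ fun i => (Subtype.val '' T i : Set M)) :
    IsFree (RFP.res τ S) T := by
  intro w hw hc hx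
  have h1 := h (w.map fun x => (x.1, (x.2 : M))) (by simpa using hw)
    (by rw [List.isChain_map]; exact hc) (by
      intro y hy
      obtain ⟨x, hxw, rfl⟩ := List.mem_map.1 hy
      exact ⟨⟨x.2, (hx x hxw).1, rfl⟩, (hx x hxw).2⟩)
  rw [res_apply]
  have h2 : (((w.map Prod.snd).prod : S) : M)
      = ((w.map fun x => (x.1, (x.2 : M))).map Prod.snd).prod := by
    have := map_list_prod S.subtype (w.map Prod.snd)
    rw [List.map_map] at this
    rw [List.map_map]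
    exact this
  rw [h2]
  exact h1

lemma IsFree.mono {I : Type} {τ : M →ₗ[ℂ] ℂ} {S T : I → Set M} (h : IsFree τ S)
    (hT : ∀ i, T i ⊆ S i) : IsFree τ T := fun w hw hc hx =>
  h w hw hc fun x hxw => ⟨hT _ (hx x hxw).1, (hx x hxw).2⟩

lemma IsFree.comp {I J : Type} {τ : M →ₗ[ℂ] ℂ} {S : I → Set M} (h : IsFree τ S) {f : J → I}
    (hf : Function.Injective f) : IsFree τ fun j => S (f j) := by
  intro w hw hc hx
  have := h (w.map fun x => (f x.1, x.2)) (by simpa using hw)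
    (by
      rw [List.isChain_map]
      exact hc.imp fun a b hab => hf.ne hab) (by
      intro y hy
      obtain ⟨x, hxw, rfl⟩ := List.mem_map.1 hy
      exact hx x hxw)
  rw [List.map_map] at this
  exact this

/-- A free family of trace-preserving *-homomorphisms into `(M, τ)` yields the reduced free
product as a subalgebra of `M`. -/
theorem exists_rfp {I : Type} {C : I → Type} [∀ i, CStarAlgebra (C i)] {σ : ∀ i, C i →ₗ[ℂ] ℂ}
    {τ : M →ₗ[ℂ] ℂ} (h : IsFTState τ) (ι : ∀ i, C i →⋆ₐ[ℂ] M)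
    (hc : ∀ i c, τ (ι i c) = σ i c) (hf : IsFree τ fun i => Set.range (ι i)) :
    ∃ (A : Type) (_ : CStarAlgebra A) (α : A →ₗ[ℂ] ℂ) (ι' : ∀ i, C i →⋆ₐ[ℂ] A)
      (j : A →⋆ₐ[ℂ] M), IsReducedFreeProduct σ α ι' ∧ (∀ a, τ (j a) = α a) ∧
        ∀ S : StarSubalgebra ℂ M, IsClosed (S : Set M) → (∀ i c, ι i c ∈ S) → ∀ a, j a ∈ S := by
  set s : Set M := ⋃ i, Set.range (ι i) with hs
  have hmem : ∀ i c, ι i c ∈ clAlg s := fun i c =>
    subset_clAlg s (Set.mem_iUnion.2 ⟨i, c, rfl⟩)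
  have hstar : star s = s := by
    ext x
    rw [Set.mem_star, hs]
    simp only [Set.mem_iUnion, Set.mem_range]
    constructor
    · rintro ⟨i, c, hc⟩
      exact ⟨i, star c, by rw [map_star, hc, star_star]⟩
    · rintro ⟨i, c, hc⟩
      exact ⟨i, star c, by rw [map_star, hc]⟩
  refine ⟨clAlg s, inferInstance, res τ (clAlg s), fun i => (ι i).codRestrict (clAlg s) (hmem i),
    (clAlg s).subtype, ⟨h.res _, fun i c => hc i c, ?_, ?_⟩, fun a => rfl, ?_⟩
  · apply IsFree.res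
    refine hf.mono fun i => ?_
    rintro _ ⟨_, ⟨c, rfl⟩, rfl⟩
    exact ⟨c, rfl⟩
  · apply dense_clAlg hstar
    ext x
    constructor
    · rintro ⟨_, hy, rfl⟩
      obtain ⟨i, c, rfl⟩ := Set.mem_iUnion.1 hy
      exact Set.mem_iUnion.2 ⟨i, c, rfl⟩
    · intro hx
      obtain ⟨i, c, rfl⟩ := Set.mem_iUnion.1 hx
      exact ⟨_, Set.mem_iUnion.2 ⟨i, c, rfl⟩, rfl⟩
  · intro S hS hι a
    refine clAlg_le hS ?_ a.2
    intro x hx
    obtain ⟨i, c, rfl⟩ := Set.mem_iUnion.1 hx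
    exact hι i c

/-- The binary version of `exists_rfp`. -/
theorem exists_rfp₂ {D A : Type} [CStarAlgebra D] [CStarAlgebra A] {δ : D →ₗ[ℂ] ℂ}
    {α : A →ₗ[ℂ] ℂ} {τ : M →ₗ[ℂ] ℂ} (h : IsFTState τ) (κ₁ : D →⋆ₐ[ℂ] M) (κ₂ : A →⋆ₐ[ℂ] M)
    (h₁ : ∀ d, τ (κ₁ d) = δ d) (h₂ : ∀ a, τ (κ₂ a) = α a)
    (hf : IsFree τ fun b : Bool => bif b then Set.range κ₁ else Set.range κ₂) :
    ∃ (B : Type) (_ : CStarAlgebra B) (β : B →ₗ[ℂ] ℂ) (κ₁' : D →⋆ₐ[ℂ] B) (κ₂' : A →⋆ₐ[ℂ] B),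
      IsReducedFreeProduct₂ δ α β κ₁' κ₂' := by
  set s : Set M := Set.range κ₁ ∪ Set.range κ₂ with hs
  have hm₁ : ∀ d, κ₁ d ∈ clAlg s := fun d => subset_clAlg s (Or.inl ⟨d, rfl⟩)
  have hm₂ : ∀ a, κ₂ a ∈ clAlg s := fun a => subset_clAlg s (Or.inr ⟨a, rfl⟩)
  have hstar : star s = s := by
    ext x
    rw [Set.mem_star, hs]
    simp only [Set.mem_union, Set.mem_range]
    constructor
    · rintro (⟨c, hc⟩ | ⟨c, hc⟩)
      · exact Or.inl ⟨star c, by rw [map_star, hc, star_star]⟩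
      · exact Or.inr ⟨star c, by rw [map_star, hc, star_star]⟩
    · rintro (⟨c, hc⟩ | ⟨c, hc⟩)
      · exact Or.inl ⟨star c, by rw [map_star, hc]⟩
      · exact Or.inr ⟨star c, by rw [map_star, hc]⟩
  refine ⟨clAlg s, inferInstance, res τ (clAlg s), κ₁.codRestrict (clAlg s) hm₁,
    κ₂.codRestrict (clAlg s) hm₂, h.res _, h₁, h₂, ?_, ?_⟩
  · apply IsFree.res
    refine hf.mono fun b => ?_
    cases b
    · rintro _ ⟨_, ⟨c, rfl⟩, rfl⟩
      exact ⟨c, rfl⟩
    · rintro _ ⟨_, ⟨c, rfl⟩, rfl⟩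
      exact ⟨c, rfl⟩
  · apply dense_clAlg hstar
    ext x
    constructor
    · rintro ⟨_, (⟨c, rfl⟩ | ⟨c, rfl⟩), rfl⟩
      · exact Or.inl ⟨c, rfl⟩
      · exact Or.inr ⟨c, rfl⟩
    · rintro (⟨c, rfl⟩ | ⟨c, rfl⟩)
      · exact ⟨_, Or.inl ⟨c, rfl⟩, rfl⟩
      · exact ⟨_, Or.inr ⟨c, rfl⟩, rfl⟩

end

end Pool.H88.RFP
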