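import Pool.Agent.H88.RFP.Basic

/-!
# Alternating centred words in a free family of *-subalgebras
-/

set_option autoImplicit false

open scoped ComplexOrder InnerProductSpace

namespace Pool.H88.RFP

variable {I B : Type*} [CStarAlgebra B]

/-- `IsWord τ P o b`: `b` is a product of an alternating word of centred elements of the
subalgebras `P i`, with first letter from `P i` if `o = some i`, and `b = 1` if `o = none`. -/
inductive IsWord (τ : B →ₗ[ℂ] ℂ) (P : I → StarSubalgebra ℂ B) : Option I → B → Prop
  | nil : IsWord τ P none 1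
  | cons {i : I} {o : Option I} {a w : B} (ha : a ∈ P i) (hτ : τ a = 0) (hw : IsWord τ P o w)
      (ho : o ≠ some i) : IsWord τ P (some i) (a * w)

namespace IsWord

variable {τ : B →ₗ[ℂ] ℂ} {P : I → StarSubalgebra ℂ B}

lemma exists_list {o : Option I} {b : B} (h : IsWord τ P o b) :
    ∃ w : List (I × B), (w.map Prod.snd).prod = b ∧ w.IsChain (fun x y => x.1 ≠ y.1) ∧
      (∀ x ∈ w, x.2 ∈ P x.1 ∧ τ x.2 = 0) ∧ w.head?.map Prod.fst = o := by
  induction h with
  | nil => exact ⟨[], by simp⟩
  | @cons i o a w ha hτ hw ho ih =>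
    obtain ⟨l, h1, h2, h3, h4⟩ := ih
    refine ⟨(i, a) :: l, by simp [h1], ?_, ?_, by simp⟩
    · rw [List.isChain_cons]
      refine ⟨?_, h2⟩
      intro y hy hiy
      apply ho
      rw [← h4, Option.mem_def.1 hy]
      simp [← hiy]
    · intro x hx
      rcases List.mem_cons.1 hx with rfl | hx
      · exact ⟨ha, hτ⟩
      · exact h3 x hx

lemma orthogonal (hτ : IsFTState τ) (hf : IsFree τ fun i => (P i : Set B)) {o o' : Option I}
    {b b' : B} (h : IsWord τ P o b) (h' : IsWord τ P o' b') (ho : o ≠ o') :
    τ (star b' * b) = 0 := by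
  obtain ⟨w, h1, h2, h3, h4⟩ := h.exists_list
  obtain ⟨w', h1', h2', h3', h4'⟩ := h'.exists_list
  have hprod : ∀ l : List (I × B),
      (((l.map fun x => (x.1, star x.2)).reverse).map Prod.snd).prod
        = star (l.map Prod.snd).prod := by
    intro l
    induction l with
    | nil => simp
    | cons x l ih => simp_all
  have := hf ((w'.map fun x => (x.1, star x.2)).reverse ++ w) ?_ ?_ ?_
  · rw [List.map_append, List.prod_append, hprod, h1, h1'] at this
    exact this
  · intro hnil
    rw [List.append_eq_nil_iff, List.reverse_eq_nil_iff, List.map_eq_nil_iff] at hnil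
    rw [hnil.1] at h4'
    rw [hnil.2] at h4
    exact ho (by rw [← h4, ← h4'])
  · rw [List.isChain_append, List.isChain_reverse, List.isChain_map]
    refine ⟨?_, h2, ?_⟩
    · exact h2'.imp fun x y hxy => hxy.symm
    · intro x hx y hy hxy
      rw [List.getLast?_reverse, List.head?_map] at hx
      obtain ⟨z, hz, rfl⟩ := Option.mem_map.1 hx
      apply ho
      rw [← h4, ← h4', Option.mem_def.1 hy, Option.mem_def.1 hz]
      simpa using hxy.symm
  · intro x hx
    rcases List.mem_append.1 hx with hx | hx
    · rw [List.mem_reverse, List.mem_map] at hx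
      obtain ⟨y, hy, rfl⟩ := hx
      refine ⟨star_mem (h3' y hy).1, ?_⟩
      simp [hτ.map_star, (h3' y hy).2]
    · exact h3 x hx

end IsWord

variable (τ : B →ₗ[ℂ] ℂ) (P : I → StarSubalgebra ℂ B)

/-- The span of all alternating centred words. -/
noncomputable def V : Submodule ℂ B := Submodule.span ℂ {b | ∃ o, IsWord τ P o b}

/-- The span of the words with first letter of type `i`. -/
noncomputable def E (i : I) : Submodule ℂ B := Submodule.span ℂ {b | IsWord τ P (some i) b}

/-- The span of the words whose first letter is not of type `i`. -/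
noncomputable def F (i : I) : Submodule ℂ B := Submodule.span ℂ {b | ∃ o, o ≠ some i ∧ IsWord τ P o b}

variable {τ P}

lemma V_eq (i : I) : V τ P = E τ P i ⊔ F τ P i := by
  rw [V, E, F, ← Submodule.span_union]
  congr 1
  ext b
  constructor
  · rintro ⟨o, ho⟩
    by_cases h : o = some i
    · exact Or.inl (h ▸ ho)
    · exact Or.inr ⟨o, h, ho⟩
  · rintro (h | ⟨o, -, ho⟩)
    · exact ⟨_, h⟩
    · exact ⟨o, ho⟩

lemma one_mem_V : (1 : B) ∈ V τ P := Submodule.subset_span ⟨none, .nil⟩

lemma mul_mem_V (hτ : IsFTState τ) {i : I} {c : B} (hc : c ∈ P i) {v : B} (hv : v ∈ V τ P) :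
    c * v ∈ V τ P := by
  have key : ∀ a ∈ P i, ∀ (o : Option I) (w : B), IsWord τ P o w → o ≠ some i →
      a * w ∈ V τ P := by
    intro a ha o w hw ho
    have h1 : a * w = (a - τ a • 1) * w + τ a • w := by
      simp [sub_mul]
    rw [h1]
    refine (V τ P).add_mem ?_ ((V τ P).smul_mem _ (Submodule.subset_span ⟨o, hw⟩))
    refine Submodule.subset_span ⟨some i, .cons ?_ ?_ hw ho⟩
    · exact sub_mem ha ((P i).smul_mem (one_mem _) _)
    · simp [hτ.map_one]
  induction hv using Submodule.span_induction with
  | mem v hv =>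
    obtain ⟨o, ho⟩ := hv
    by_cases h : o = some i
    · subst h
      cases ho with
      | @cons _ o a w ha hτa hw ho =>
        rw [← mul_assoc]
        exact key _ (mul_mem hc ha) o w hw ho
    · exact key c hc o v ho h
  | zero => simp
  | add x y _ _ hx hy => rw [mul_add]; exact (V τ P).add_mem hx hy
  | smul r x _ hx => rw [mul_smul_comm]; exact (V τ P).smul_mem _ hx

lemma adjoin_le_V (hτ : IsFTState τ) {y : B} (hy : y ∈ Algebra.adjoin ℂ (⋃ i, (P i : Set B))) :
    y ∈ V τ P := by
  have : ∀ v ∈ V τ P, y * v ∈ V τ P := by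
    induction hy using Algebra.adjoin_induction with
    | mem y hy =>
      obtain ⟨i, hi⟩ := Set.mem_iUnion.1 hy
      exact fun v hv => mul_mem_V hτ hi hv
    | algebraMap r =>
      intro v hv
      rw [Algebra.algebraMap_eq_smul_one, smul_mul_assoc, one_mul]
      exact (V τ P).smul_mem _ hv
    | add y z _ _ hy hz =>
      intro v hv
      rw [add_mul]
      exact (V τ P).add_mem (hy v hv) (hz v hv)
    | mul y z _ _ hy hz =>
      intro v hv
      rw [mul_assoc]
      exact hy _ (hz v hv)
  simpa using this 1 one_mem_V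

/-- bilinear extension of an orthogonality relation -/
lemma orth_span {S T : Set B} (c : B) (h : ∀ s ∈ S, ∀ t ∈ T, τ (star s * (c * t)) = 0)
    {x y : B} (hx : x ∈ Submodule.span ℂ S) (hy : y ∈ Submodule.span ℂ T) :
    τ (star x * (c * y)) = 0 := by
  induction hx using Submodule.span_induction with
  | mem s hs =>
    induction hy using Submodule.span_induction with
    | mem t ht => exact h s hs t ht
    | zero => simp
    | add x y _ _ hx hy => rw [mul_add, mul_add, map_add, hx, hy, add_zero]
    | smul r x _ hx => rw [mul_smul_comm, mul_smul_comm, map_smul, hx, smul_zero]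
  | zero => simp
  | add x y _ _ hx hy => rw [star_add, add_mul, map_add, hx, hy, add_zero]
  | smul r x _ hx => rw [star_smul, smul_mul_assoc, map_smul, hx, smul_zero]

end Pool.H88.RFP
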